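import Pool.Agent.U687.KT.Crit2

/-!
# Monomials up to cubes; sets of primes
-/

set_option autoImplicit false

open scoped Classical

namespace Pool.Agent.U687.KT

open NumberField Filter Topology Finset
open Pool.Agent.Y692.QS (Ei w nr)
open Pool.Agent.Y715.T.Rec (cs)
open Pool.Agent.Y715.T.RecG (Pq)
open Pool.Agent.Y696.CTK (pq_symm)

section ring
variable {R : Type} [CommRing R] [IsDomain R]

/-- equal up to cubes -/
def CR (x y : R) : Prop := ∃ s t : R, s ≠ 0 ∧ t ≠ 0 ∧ x * s ^ 3 = y * t ^ 3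

theorem CR.refl (x : R) : CR x x := ⟨1, 1, one_ne_zero, one_ne_zero, rfl⟩

theorem CR.symm {x y : R} (h : CR x y) : CR y x := by
  obtain ⟨s, t, hs, ht, h⟩ := h
  exact ⟨t, s, ht, hs, h.symm⟩

theorem CR.mul {x y x' y' : R} (h : CR x y) (h' : CR x' y') : CR (x * x') (y * y') := by
  obtain ⟨s, t, hs, ht, h⟩ := h
  obtain ⟨s', t', hs', ht', h'⟩ := h'
  refine ⟨s * s', t * t', mul_ne_zero hs hs', mul_ne_zero ht ht', ?_⟩
  linear_combination (x' * s' ^ 3) * h + (y * t ^ 3) * h'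

theorem CR.trans {x y z : R} (h : CR x y) (h' : CR y z) : CR x z := by
  obtain ⟨s, t, hs, ht, h⟩ := h
  obtain ⟨s', t', hs', ht', h'⟩ := h'
  refine ⟨s * s', t * t', mul_ne_zero hs hs', mul_ne_zero ht ht', ?_⟩
  linear_combination (s' ^ 3) * h + (t ^ 3) * h'

theorem CR.cube (x : R) {y : R} (hy : y ≠ 0) : CR (x * y ^ 3) x :=
  ⟨1, y, one_ne_zero, hy, by ring⟩

theorem CR.prod {ι : Type} (s : Finset ι) {f g : ι → R} (h : ∀ i ∈ s, CR (f i) (g i)) :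
    CR (∏ i ∈ s, f i) (∏ i ∈ s, g i) := by
  induction s using Finset.induction_on with
  | empty => exact CR.refl _
  | insert a s ha ih =>
    rw [Finset.prod_insert ha, Finset.prod_insert ha]
    exact (h a (Finset.mem_insert_self _ _)).mul
      (ih fun i hi => h i (Finset.mem_insert_of_mem hi))

theorem pow_cr {p : R} (hp : p ≠ 0) (a b : ZMod 3) : CR (p ^ a.val * p ^ b.val) (p ^ (a + b).val) := by
  have h : ∀ a b : ZMod 3, a.val + b.val = (a + b).val + 3 * ((a.val + b.val) / 3) := by decide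
  refine ⟨1, p ^ ((a.val + b.val) / 3), one_ne_zero, pow_ne_zero _ hp, ?_⟩
  rw [one_pow, mul_one, ← pow_add, ← pow_mul, ← pow_add]
  congr 1
  have := h a b
  omega

theorem mon_cr {n : ℕ} {ω : R} {π : Fin n → R} (hω : ω ≠ 0) (hπ : ∀ k, π k ≠ 0) (i i' : ZMod 3)
    (e e' : Fin n → ZMod 3) : CR (mon ω π i e * mon ω π i' e') (mon ω π (i + i') (e + e')) := by
  unfold mon
  have e1 : ω ^ i.val * (∏ k, π k ^ (e k).val) * (ω ^ i'.val * ∏ k, π k ^ (e' k).val) =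
      (ω ^ i.val * ω ^ i'.val) * ∏ k, (π k ^ (e k).val * π k ^ (e' k).val) := by
    rw [Finset.prod_mul_distrib]
    ring
  rw [e1]
  exact (pow_cr hω i i').mul (CR.prod _ fun k _ => pow_cr (hπ k) (e k) (e' k))

theorem mon_zero {n : ℕ} (ω : R) (π : Fin n → R) : mon ω π 0 0 = 1 := by
  unfold mon
  simp

theorem mon_sum {n : ℕ} {ω : R} {π : Fin n → R} (hω : ω ≠ 0) (hπ : ∀ k, π k ≠ 0) {ι : Type}
    (s : Finset ι) (u : ι → ZMod 3) (b : ι → Fin n → ZMod 3) :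
    CR (∏ l ∈ s, mon ω π (u l) (b l)) (mon ω π (∑ l ∈ s, u l) (∑ l ∈ s, b l)) := by
  induction s using Finset.induction_on with
  | empty =>
    rw [Finset.prod_empty, Finset.sum_empty, Finset.sum_empty, mon_zero]
    exact CR.refl _
  | insert a s ha ih =>
    rw [Finset.prod_insert ha, Finset.sum_insert ha, Finset.sum_insert ha]
    exact ((CR.refl _).mul ih).trans (mon_cr hω hπ _ _ _ _)

/-- `∑ g + ∑_T g` -/
def wt {ι M : Type} [Fintype ι] [AddCommMonoid M] (g : ι → M) (T : Finset ι) : M :=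
  ∑ l, g l + ∑ l ∈ T, g l

theorem mon_wt {n : ℕ} {ω : R} {π : Fin n → R} (hω : ω ≠ 0) (hπ : ∀ k, π k ≠ 0) {ι : Type} [Fintype ι]
    (T : Finset ι) (u : ι → ZMod 3) (b : ι → Fin n → ZMod 3) {x : ι → R}
    (hx : ∀ l, CR (x l) (mon ω π (u l) (b l))) :
    CR ((∏ l, x l) * ∏ l ∈ T, x l) (mon ω π (wt u T) (wt b T)) := by
  have h1 := CR.prod Finset.univ (fun l _ => hx l)
  have h2 := CR.prod T (fun l _ => hx l)
  exact (h1.mul h2).trans (((mon_sum hω hπ _ u b).mul (mon_sum hω hπ T u b)).trans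
    (mon_cr hω hπ _ _ _ _))

end ring

theorem wt_cons {n : ℕ} {ι : Type} [Fintype ι] (g : ι → ZMod 3) (b : ι → Fin n → ZMod 3)
    (T : Finset ι) : wt (fun l => (Fin.cons (g l) (b l) : Fin (n + 1) → ZMod 3)) T =
      (Fin.cons (wt g T) (wt b T) : Fin (n + 1) → ZMod 3) := by
  funext k
  unfold wt
  rw [Pi.add_apply, Finset.sum_apply, Finset.sum_apply]
  refine Fin.cases ?_ (fun k => ?_) k
  · simp only [Fin.cons_zero]
  · simp only [Fin.cons_succ]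
    rw [Pi.add_apply, Finset.sum_apply, Finset.sum_apply]

section
variable {K : Type} [Field K] [NumberField K]

/-- the set of primes, in the Eisenstein integers -/
theorem sets_eq' (j : Ei ≃+* 𝓞 K) (hj : ∀ z : Ei, Algebra.norm ℤ (j z) = nr z) (a : ZMod 3)
    (R : 𝓞 K → Prop) (X : ℕ) :
    {q : 𝓞 K | (Prime q ∧ (3 : 𝓞 K) ∣ q - 1 ∧ Algebra.norm ℤ q ≤ X ∧
      Algebra.norm ℤ q % 9 = 1 + 3 * (a.val : ℤ)) ∧ R q}.ncard =
      Q283.TC.NT (fun z => cs z w = a ∧ R (j z)) X := by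
  unfold Q283.TC.NT
  rw [← Set.ncard_image_of_injective _ j.injective]
  congr 1
  ext q
  obtain ⟨z, rfl⟩ := j.surjective q
  have h1 : j z ∈ j '' {π : Ei | Pq π ∧ nr π ≤ X ∧ cs π w = a ∧ R (j π)} ↔
      Pq z ∧ nr z ≤ X ∧ cs z w = a ∧ R (j z) := by
    constructor
    · rintro ⟨z', h2, h3⟩
      rw [j.injective h3] at h2
      exact h2
    · intro h2
      exact ⟨z, h2, rfl⟩
  have h2 : (Prime (j z) ∧ (3 : 𝓞 K) ∣ j z - 1) ↔ Pq z := by
    constructor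
    · rintro ⟨h3, h4⟩
      have := pq_symm j h3 h4
      rwa [RingEquiv.symm_apply_apply] at this
    · intro h3
      refine ⟨(MulEquiv.prime_iff (j : Ei ≃* 𝓞 K)).2 h3.prime, ?_⟩
      have h4 : j z - 1 = j (z - 1) := by rw [map_sub, map_one]
      rw [h4, ← map_ofNat j 3]
      exact map_dvd j h3.three
  refine Iff.trans ?_ h1.symm
  show ((Prime (j z) ∧ (3 : 𝓞 K) ∣ j z - 1 ∧ Algebra.norm ℤ (j z) ≤ X ∧
    Algebra.norm ℤ (j z) % 9 = 1 + 3 * (a.val : ℤ)) ∧ R (j z)) ↔ _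
  rw [hj]
  constructor
  · rintro ⟨⟨h3, h4, h5, h6⟩, h7⟩
    have h8 := h2.1 ⟨h3, h4⟩
    exact ⟨h8, h5, (norm_class h8 a).1 h6, h7⟩
  · rintro ⟨h3, h4, h5, h6⟩
    obtain ⟨h7, h8⟩ := h2.2 h3
    exact ⟨⟨h7, h8, h4, (norm_class h3 a).2 h5⟩, h6⟩

/-- **the law for a system, over `𝓞 K`** -/
theorem law_K (j : Ei ≃+* 𝓞 K) (hj : ∀ z : Ei, Algebra.norm ℤ (j z) = nr z) {n : ℕ}
    {π : Fin n → 𝓞 K} {χ : Fin n → Fin n → ZMod 3} {η : Fin n → ZMod 3}
    (h : IsSys (j w) n π χ η) (a : ZMod 3) (C : (Fin n → ZMod 3) → Prop) (T : 𝓞 K → Prop)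
    (hT : ∀ z, Pq z → (∀ k, j.symm (π k) ≠ z) → cs z w = a →
      (T (j z) ↔ C (fun k => cs z (j.symm (π k))))) :
    Tendsto (fun X : ℕ => ({q : 𝓞 K | (Prime q ∧ (3 : 𝓞 K) ∣ q - 1 ∧ Algebra.norm ℤ q ≤ X ∧
      Algebra.norm ℤ q % 9 = 1 + 3 * (a.val : ℤ)) ∧ T q}.ncard : ℝ) /
        ({q : 𝓞 K | Prime q ∧ (3 : 𝓞 K) ∣ q - 1 ∧ Algebra.norm ℤ q ≤ X ∧
      Algebra.norm ℤ q % 9 = 1 + 3 * (a.val : ℤ)}.ncard : ℝ)) atTop
      (𝓝 ((Nat.card {x : Fin n → ZMod 3 // C x} : ℝ) / 3 ^ n)) := by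
  refine (law_sys j hj h a C (fun z => T (j z)) hT).congr fun X => ?_
  have e0 := sets_eq' j hj a (fun _ => True) X
  simp only [and_true] at e0
  rw [sets_eq' j hj a T X, e0]

end

end Pool.Agent.U687.KT
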