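import Pool.Agent.U687.KT.Sel
import Pool.Agent.U687.KT.Cube

/-!
# Factorisations with a new prime; shares of the ranks
-/

set_option autoImplicit false

open scoped Classical

namespace Pool.Agent.U687.KT

open NumberField Filter Topology Finset Matrix
open Pool.Agent.Y692.QS (Ei w nr)
open Pool.Agent.Y703.CT (Dt pD pD_prim)
open Pool.Agent.Y715.T.Rec (cs nn)
open Pool.Agent.Y715.T.RecG (Pq)
open Pool.Agent.Y696.CTK (pq_symm)

section
variable {K : Type} [Field K] [NumberField K]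

/-- the factorisation into prime powers, and the cubic residue symbols -/
def RF (η D : 𝓞 K) (n : ℕ) (π : Fin n → 𝓞 K) (e : Fin n → ZMod 3)
    (χ : Fin n → Fin n → ZMod 3) : Prop :=
  (∀ i, Prime (π i) ∧ (3 : 𝓞 K) ∣ π i - 1 ∧ e i ≠ 0) ∧ D = ∏ i, π i ^ (e i).val ∧
  ∀ i j, i ≠ j → ¬ π j ∣ π i ∧
    π j ∣ π i ^ (((Algebra.norm ℤ (π j)).natAbs - 1) / 3) - η ^ (χ j i).val

variable (j : Ei ≃+* 𝓞 K)

theorem rf_data (hj : ∀ z : Ei, Algebra.norm ℤ (j z) = nr z) {D : 𝓞 K} {n : ℕ}
    {π : Fin n → 𝓞 K} {e : Fin n → ZMod 3} {χ : Fin n → Fin n → ZMod 3}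
    (h : RF (j w) D n π e χ) :
    Dt (fun k => j.symm (π k)) e ∧ D = j (pD (fun k => j.symm (π k)) e) ∧
      (∀ k l, k ≠ l → χ k l = cs (j.symm (π k)) (j.symm (π l))) := by
  obtain ⟨h1, h2, h3⟩ := h
  have hdt : Dt (fun k => j.symm (π k)) e :=
    ⟨fun i => pq_symm j (h1 i).1 (h1 i).2.1, fun i k hik hd =>
      (h3 i k hik).1 ((map_dvd_iff j.symm).1 hd), fun i => (h1 i).2.2⟩
  have hnn : ∀ k, nn (j.symm (π k)) = ((Algebra.norm ℤ (π k)).natAbs - 1) / 3 := by
    intro k
    unfold nn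
    rw [← hj, RingEquiv.apply_symm_apply]
  refine ⟨hdt, ?_, ?_⟩
  · unfold pD
    rw [h2, map_prod]
    simp only [map_pow, RingEquiv.apply_symm_apply]
  · intro l k hlk
    symm
    have hpq := hdt.pq l
    apply Pool.Agent.Y715.T.RecG.cs_of hpq.prime hpq.norm
    have h6 := map_dvd j.symm (h3 k l hlk.symm).2
    rw [map_sub, map_pow, map_pow, RingEquiv.symm_apply_apply, ← hnn l] at h6
    exact h6

theorem prime_j {z : Ei} (hz : Pq z) : Prime (j z) ∧ (3 : 𝓞 K) ∣ j z - 1 := by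
  refine ⟨(MulEquiv.prime_iff (j : Ei ≃* 𝓞 K)).2 hz.prime, ?_⟩
  have h4 : j z - 1 = j (z - 1) := by rw [map_sub, map_one]
  rw [h4, ← map_ofNat j 3]
  exact map_dvd j hz.three

/-- **the factorisation of `D q ^ f`** -/
theorem rf_cons (hj : ∀ z : Ei, Algebra.norm ℤ (j z) = nr z) {D : 𝓞 K} {n : ℕ}
    {π : Fin n → 𝓞 K} {e : Fin n → ZMod 3} {χ : Fin n → Fin n → ZMod 3}
    (h : RF (j w) D n π e χ) {f : ZMod 3} (hf : f ≠ 0) {z : Ei} (hz : Pq z)
    (hne : ∀ k, j.symm (π k) ≠ z) :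
    RF (j w) (D * (j z) ^ f.val) (n + 1) (Fin.cons (j z) π : Fin (n + 1) → 𝓞 K)
      (Fin.cons f e : Fin (n + 1) → ZMod 3) (ex1 χ (fun k => cs z (j.symm (π k)))) := by
  obtain ⟨hdt, -, hχ⟩ := rf_data j hj h
  obtain ⟨h1, h2, h3⟩ := h
  refine ⟨fun k => ?_, ?_, fun k l => ?_⟩
  · refine Fin.cases ?_ (fun k => ?_) k
    · exact ⟨(prime_j j hz).1, (prime_j j hz).2, hf⟩
    · exact h1 k
  · rw [Fin.prod_univ_succ]
    simp only [Fin.cons_zero, Fin.cons_succ]
    rw [h2, mul_comm]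
  · refine Fin.cases ?_ (fun k => ?_) k
    · refine Fin.cases ?_ (fun l => ?_) l
      · intro h
        exact absurd rfl h
      · intro _
        -- modulus `π l`, element `q`
        show ¬ π l ∣ j z ∧ π l ∣ (j z) ^ (((Algebra.norm ℤ (π l)).natAbs - 1) / 3) -
          j w ^ (cs z (j.symm (π l))).val
        have hnd : ¬ j.symm (π l) ∣ z := fun hd => hne l (eq_of_dvd (hdt.pq l) hz hd)
        refine ⟨fun hd => hnd ?_, ?_⟩
        · have := map_dvd j.symm hd
          rwa [RingEquiv.symm_apply_apply] at this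
        · have h4 := Pool.Agent.Y715.T.RecG.cs_spec (hdt.pq l).prime (hdt.pq l).norm hnd
          rw [Pool.Agent.Y350.CT.rec z (j.symm (π l)) hz (hdt.pq l) hnd] at h4
          have h5 := map_dvd j h4
          rw [map_sub, map_pow, map_pow, RingEquiv.apply_symm_apply] at h5
          have h6 : nn (j.symm (π l)) = ((Algebra.norm ℤ (π l)).natAbs - 1) / 3 := by
            unfold nn
            rw [← hj, RingEquiv.apply_symm_apply]
          rw [h6] at h5
          exact h5
    · refine Fin.cases ?_ (fun l => ?_) l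
      · intro _
        show ¬ j z ∣ π k ∧ j z ∣ (π k) ^ (((Algebra.norm ℤ (j z)).natAbs - 1) / 3) -
          j w ^ (cs z (j.symm (π k))).val
        have hnd : ¬ z ∣ j.symm (π k) := fun hd => hne k (eq_of_dvd hz (hdt.pq k) hd).symm
        refine ⟨fun hd => hnd ?_, ?_⟩
        · have := map_dvd j.symm hd
          rwa [RingEquiv.symm_apply_apply] at this
        · have h4 := Pool.Agent.Y715.T.RecG.cs_spec hz.prime hz.norm hnd
          have h5 := map_dvd j h4
          rw [map_sub, map_pow, map_pow, RingEquiv.apply_symm_apply] at h5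
          have h6 : nn z = ((Algebra.norm ℤ (j z)).natAbs - 1) / 3 := by
            unfold nn
            rw [hj]
          rw [h6] at h5
          exact h5
      · intro hkl
        exact h3 k l (fun h' => hkl (congrArg Fin.succ h'))

/-- the product belongs to the class -/
theorem rf_class {D : 𝓞 K} {n : ℕ} (hj : ∀ z : Ei, Algebra.norm ℤ (j z) = nr z)
    {π : Fin n → 𝓞 K} {e : Fin n → ZMod 3} {χ : Fin n → Fin n → ZMod 3}
    (h : RF (j w) D n π e χ) :
    (3 : 𝓞 K) ∣ D - 1 ∧ ∀ x : 𝓞 K, x ^ 3 ∣ D → IsUnit x := by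
  obtain ⟨hdt, hD, -⟩ := rf_data j hj h
  refine ⟨?_, fun x hx => ?_⟩
  · have h1 := map_dvd j (pD_prim hdt).1
    rw [map_sub, map_one, ← hD, map_ofNat] at h1
    exact h1
  · have h2 := (Pool.Agent.R419.CE.cf_pD hdt).2 (j.symm x) (by
      have h3 := map_dvd j.symm hx
      rw [map_pow, hD, RingEquiv.symm_apply_apply] at h3
      exact h3)
    have h4 := h2.map j
    rwa [RingEquiv.apply_symm_apply] at h4

theorem norm_nine {D q : 𝓞 K} {f a : ZMod 3}
    (ha : ¬ (9 : ℤ) ∣ Algebra.norm ℤ D * (1 + 3 * (a.val : ℤ)) ^ f.val - 1)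
    (hq : Algebra.norm ℤ q % 9 = 1 + 3 * (a.val : ℤ)) :
    ¬ (9 : ℤ) ∣ Algebra.norm ℤ (D * q ^ f.val) - 1 := by
  intro h
  apply ha
  rw [map_mul, map_pow] at h
  have h1 : (9 : ℤ) ∣ Algebra.norm ℤ q - (1 + 3 * (a.val : ℤ)) := by
    rw [← hq]
    exact Int.dvd_self_sub_emod
  have h2 : (9 : ℤ) ∣ Algebra.norm ℤ q ^ f.val - (1 + 3 * (a.val : ℤ)) ^ f.val :=
    dvd_trans h1 (sub_dvd_pow_sub_pow _ _ _)
  have e1 : Algebra.norm ℤ D * (1 + 3 * (a.val : ℤ)) ^ f.val - 1 =
      (Algebra.norm ℤ D * Algebra.norm ℤ q ^ f.val - 1) -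
        Algebra.norm ℤ D * (Algebra.norm ℤ q ^ f.val - (1 + 3 * (a.val : ℤ)) ^ f.val) := by ring
  rw [e1]
  exact dvd_sub h (h2.mul_left _)

end

/-! ### the shares -/

section share
variable {n : ℕ}

/-- the share of the diagonals for which the corank is `r` -/
noncomputable def shr (A : Matrix (Fin n) (Fin n) (ZMod 3)) (r : ℕ) : ℝ :=
  (Nat.card {y : Fin n → ZMod 3 // (A + diagonal y).rank + r = n} : ℝ) / 3 ^ n

theorem shr_nonneg (A : Matrix (Fin n) (Fin n) (ZMod 3)) (r : ℕ) : 0 ≤ shr A r := by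
  unfold shr; positivity

theorem shr_big (A : Matrix (Fin n) (Fin n) (ZMod 3)) {r : ℕ} (hr : n < r) : shr A r = 0 := by
  unfold shr
  have : IsEmpty {y : Fin n → ZMod 3 // (A + diagonal y).rank + r = n} :=
    ⟨fun y => by have := y.2; omega⟩
  rw [Nat.card_of_isEmpty]
  simp

/-- weighted sums of the shares -/
theorem sum_shr (A : Matrix (Fin n) (Fin n) (ZMod 3)) (F : ℕ → ℝ) :
    ∑ r ∈ Finset.range (n + 1), F r * shr A r =
      (∑ y : Fin n → ZMod 3, F (n - (A + diagonal y).rank)) / 3 ^ n := by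
  have h1 : ∀ r, (Nat.card {y : Fin n → ZMod 3 // (A + diagonal y).rank + r = n} : ℝ) =
      ∑ y : Fin n → ZMod 3, if (A + diagonal y).rank + r = n then 1 else 0 := by
    intro r
    rw [Nat.card_eq_fintype_card, Fintype.card_subtype, Finset.sum_boole]
  unfold shr
  simp only [h1]
  have h2 : ∀ y : Fin n → ZMod 3, F (n - (A + diagonal y).rank) =
      ∑ r ∈ Finset.range (n + 1), F r * (if (A + diagonal y).rank + r = n then 1 else 0) := by
    intro y
    have hr := (card_ker (A + diagonal y)).2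
    rw [Finset.sum_eq_single (n - (A + diagonal y).rank)]
    · rw [if_pos (by omega), mul_one]
    · intro r _ hne
      rw [if_neg (by omega), mul_zero]
    · intro h
      exact absurd (Finset.mem_range.2 (by omega)) h
  simp only [h2]
  rw [Finset.sum_comm, Finset.sum_div]
  refine Finset.sum_congr rfl fun r _ => ?_
  rw [← Finset.mul_sum, mul_div_assoc]

theorem sum_shr_one (A : Matrix (Fin n) (Fin n) (ZMod 3)) :
    ∑ r ∈ Finset.range (n + 1), shr A r = 1 := by
  have h := sum_shr A (fun _ => 1)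
  simp only [one_mul, Finset.sum_const, Finset.card_univ, Fintype.card_fun, Fintype.card_fin,
    ZMod.card, nsmul_eq_mul, mul_one] at h
  rw [h]
  push_cast
  exact div_self (by positivity)

theorem shr_zero (A : Matrix (Fin n) (Fin n) (ZMod 3)) :
    shr A 0 = (Nat.card {y : Fin n → ZMod 3 // (A + diagonal y).det ≠ 0} : ℝ) / 3 ^ n := by
  unfold shr
  congr 2
  refine Nat.card_congr (Equiv.subtypeEquivRight fun y => ?_)
  rw [add_zero, ← isUnit_iff_ne_zero, ← Matrix.isUnit_iff_isUnit_det]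
  constructor
  · intro h
    by_contra hu
    have h3 : (A + diagonal y).det = 0 := by
      by_contra h4
      exact hu ((Matrix.isUnit_iff_isUnit_det _).2 (isUnit_iff_ne_zero.2 h4))
    obtain ⟨v, hv0, hv⟩ := Matrix.exists_mulVec_eq_zero_iff.2 h3
    have h5 := (card_ker (A + diagonal y)).1
    rw [h, Nat.sub_self, pow_zero] at h5
    obtain ⟨x, hx⟩ := Nat.card_eq_one_iff_exists.1 h5
    have h6 := hx ⟨v, hv⟩
    have h7 := hx ⟨0, by rw [Matrix.mulVec_zero]⟩
    exact hv0 (congrArg Subtype.val (h6.trans h7.symm))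
  · intro h
    rw [Matrix.rank_of_isUnit _ h, Fintype.card_fin]

theorem shr_zero_ge (A : Matrix (Fin n) (Fin n) (ZMod 3)) : (2 / 3 : ℝ) ^ n ≤ shr A 0 := by
  rw [shr_zero, div_pow]
  have h1 := Pool.Agent.U687.PT.pd_all (Fin n) inferInstance A
  rw [Fintype.card_fin] at h1
  have h2 : (2 : ℝ) ^ n ≤ (Nat.card {y : Fin n → ZMod 3 // (A + diagonal y).det ≠ 0} : ℝ) := by
    exact_mod_cast h1
  gcongr

end share

theorem shr_zero_le {n : ℕ} (A : Matrix (Fin (n + 1)) (Fin (n + 1)) (ZMod 3)) :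
    shr A 0 ≤ 1 - (1 / 3) * (2 / 3 : ℝ) ^ n := by
  rw [shr_zero]
  have h1 := card_sing A
  have h2 : Nat.card {y : Fin (n + 1) → ZMod 3 // (A + diagonal y).det ≠ 0} +
      Nat.card {y : Fin (n + 1) → ZMod 3 // ¬ (A + diagonal y).det ≠ 0} = 3 ^ (n + 1) := by
    rw [← Nat.card_sum, Nat.card_congr (Equiv.sumCompl _), Nat.card_eq_fintype_card,
      Fintype.card_fun, Fintype.card_fin, ZMod.card]
  have h5 : (Nat.card {y : Fin (n + 1) → ZMod 3 // (A + diagonal y).det ≠ 0} : ℝ) + 2 ^ n ≤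
      3 ^ (n + 1) := by
    have : Nat.card {y : Fin (n + 1) → ZMod 3 // (A + diagonal y).det ≠ 0} + 2 ^ n ≤
      3 ^ (n + 1) := by omega
    exact_mod_cast this
  rw [div_le_iff₀ (by positivity)]
  have h6 : (1 - (1 / 3) * (2 / 3 : ℝ) ^ n) * 3 ^ (n + 1) = 3 ^ (n + 1) - 2 ^ n := by
    rw [div_pow, pow_succ]
    field_simp
  rw [h6]
  linarith

/-! ### the mean -/

section mean
variable {n : ℕ}

/-- the number of the diagonals that kill a given vector -/
theorem card_kill (A : Matrix (Fin n) (Fin n) (ZMod 3)) (v : Fin n → ZMod 3) :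
    Nat.card {y : Fin n → ZMod 3 // (A + diagonal y) *ᵥ v = 0} =
      if ∀ k, v k = 0 → (A *ᵥ v) k = 0 then 3 ^ (Finset.univ.filter fun k => v k = 0).card
      else 0 := by
  have h0 : ∀ y : Fin n → ZMod 3, ((A + diagonal y) *ᵥ v = 0 ↔
      ∀ k, (A *ᵥ v) k + y k * v k = 0) := by
    intro y
    rw [Matrix.add_mulVec, funext_iff]
    refine forall_congr' fun k => ?_
    rw [Pi.add_apply, Matrix.mulVec_diagonal]
    rfl
  have h1 : Nat.card {y : Fin n → ZMod 3 // (A + diagonal y) *ᵥ v = 0} =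
      ∏ k, Nat.card {c : ZMod 3 // (A *ᵥ v) k + c * v k = 0} := by
    rw [← Nat.card_pi]
    refine Nat.card_congr
      { toFun := fun y k => ⟨y.1 k, (h0 y.1).1 y.2 k⟩
        invFun := fun c => ⟨fun k => (c k).1, (h0 _).2 fun k => (c k).2⟩
        left_inv := fun _ => rfl
        right_inv := fun _ => rfl }
  have h2 : ∀ b x : ZMod 3, Nat.card {c : ZMod 3 // b + c * x = 0} =
      if x = 0 then (if b = 0 then 3 else 0) else 1 := by
    intro b x
    rw [Nat.card_eq_fintype_card]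
    revert b x
    decide
  rw [h1]
  simp only [h2]
  split_ifs with h
  · rw [← Finset.prod_filter_mul_prod_filter_not Finset.univ (fun k => v k = 0)]
    rw [Finset.prod_congr rfl (g := fun _ => 3) (fun k hk => by
      have hk' := (Finset.mem_filter.1 hk).2
      rw [if_pos hk', if_pos (h k hk')])]
    rw [Finset.prod_congr (s₁ := Finset.univ.filter fun k => ¬ v k = 0) rfl (g := fun _ => 1)
      (fun k hk => by
        rw [if_neg (Finset.mem_filter.1 hk).2])]
    rw [Finset.prod_const, Finset.prod_const_one, mul_one]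
  · push Not at h
    obtain ⟨k, hk1, hk2⟩ := h
    refine Finset.prod_eq_zero (Finset.mem_univ k) ?_
    rw [if_pos hk1, if_neg hk2]

/-- the mean order of the kernel -/
noncomputable def mn (A : Matrix (Fin n) (Fin n) (ZMod 3)) : ℝ :=
  ∑ v : Fin n → ZMod 3, if ∀ k, v k = 0 → (A *ᵥ v) k = 0 then
    (1 / 3 : ℝ) ^ (Finset.univ.filter fun k => v k ≠ 0).card else 0

theorem sum_three (A : Matrix (Fin n) (Fin n) (ZMod 3)) :
    ∑ r ∈ Finset.range (n + 1), (3 : ℝ) ^ r * shr A r = mn A := by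
  rw [sum_shr A (fun r => (3 : ℝ) ^ r)]
  have h1 : ∀ y : Fin n → ZMod 3, (3 : ℝ) ^ (n - (A + diagonal y).rank) =
      ∑ v : Fin n → ZMod 3, if (A + diagonal y) *ᵥ v = 0 then (1 : ℝ) else 0 := by
    intro y
    have h2 := (card_ker (A + diagonal y)).1
    rw [Nat.card_eq_fintype_card, Fintype.card_subtype] at h2
    rw [Finset.sum_boole, h2]
    push_cast
    rfl
  simp only [h1]
  rw [Finset.sum_comm, Finset.sum_div]
  unfold mn
  refine Finset.sum_congr rfl fun v _ => ?_
  have h3 := card_kill A v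
  rw [Nat.card_eq_fintype_card, Fintype.card_subtype] at h3
  rw [Finset.sum_boole, h3]
  have h4 : (Finset.univ.filter fun k => v k = 0).card +
      (Finset.univ.filter fun k => v k ≠ 0).card = n := by
    have := Finset.card_filter_add_card_filter_not (s := (Finset.univ : Finset (Fin n)))
      (fun k => v k = 0)
    rwa [Finset.card_univ, Fintype.card_fin] at this
  split_ifs
  · push_cast
    rw [div_eq_iff (by positivity), one_div, inv_pow]
    rw [eq_comm, inv_mul_eq_iff_eq_mul₀ (by positivity), ← pow_add]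
    congr 1
    omega
  · simp

theorem mn_le (A : Matrix (Fin n) (Fin n) (ZMod 3)) : mn A ≤ (5 / 3 : ℝ) ^ n := by
  have h1 : ∀ v : Fin n → ZMod 3, (1 / 3 : ℝ) ^ (Finset.univ.filter fun k => v k ≠ 0).card =
      ∏ k, if v k ≠ 0 then (1 / 3 : ℝ) else 1 := by
    intro v
    rw [Finset.prod_ite, Finset.prod_const, Finset.prod_const_one, mul_one]
  have h2 : ∑ v : Fin n → ZMod 3, ∏ k, (if v k ≠ 0 then (1 / 3 : ℝ) else 1) = (5 / 3 : ℝ) ^ n := by
    have h3 := Finset.prod_univ_sum (fun _ : Fin n => (Finset.univ : Finset (ZMod 3)))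
      (fun (_ : Fin n) (x : ZMod 3) => if x ≠ 0 then (1 / 3 : ℝ) else 1)
    rw [Fintype.piFinset_univ] at h3
    rw [← h3, Finset.prod_const, Finset.card_univ, Fintype.card_fin]
    congr 1
    rw [show (Finset.univ : Finset (ZMod 3)) = {0, 1, 2} from by decide,
      Finset.sum_insert (by decide), Finset.sum_insert (by decide), Finset.sum_singleton,
      if_neg (by decide), if_pos (by decide), if_pos (by decide)]
    norm_num
  rw [← h2]
  unfold mn
  refine Finset.sum_le_sum fun v _ => ?_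
  rw [← h1]
  split_ifs
  · exact le_refl _
  · positivity

end mean

theorem mn_ge {n : ℕ} (A : Matrix (Fin (n + 1)) (Fin (n + 1)) (ZMod 3)) :
    1 + (2 / 3 : ℝ) ^ (n + 1) ≤ mn A := by
  set F : Finset (Fin (n + 1) → ZMod 3) := Finset.univ.filter fun v => ∀ k, v k ≠ 0 with hF
  have hFc : F.card = 2 ^ (n + 1) := by
    have h1 : F.card = Nat.card {v : Fin (n + 1) → ZMod 3 // ∀ k, v k ≠ 0} := by
      rw [Nat.card_eq_fintype_card, Fintype.card_subtype]
    rw [h1, Nat.card_congr (Equiv.subtypePiEquivPi (p := fun (_ : Fin (n + 1)) (x : ZMod 3) => x ≠ 0)),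
      Nat.card_pi, Finset.prod_const, Finset.card_univ, Fintype.card_fin]
    congr 1
    rw [Nat.card_eq_fintype_card]
    decide
  have h0 : (0 : Fin (n + 1) → ZMod 3) ∉ F := fun h => (Finset.mem_filter.1 h).2 0 rfl
  set T : (Fin (n + 1) → ZMod 3) → ℝ := fun v => if ∀ k, v k = 0 → (A *ᵥ v) k = 0 then
    (1 / 3 : ℝ) ^ (Finset.univ.filter fun k => v k ≠ 0).card else 0 with hT
  have hT0 : ∀ v, 0 ≤ T v := by
    intro v
    rw [hT]
    dsimp only
    split_ifs
    · positivity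
    · exact le_refl _
  have h1 : ∑ v ∈ insert 0 F, T v ≤ mn A :=
    Finset.sum_le_univ_sum_of_nonneg hT0
  rw [Finset.sum_insert h0] at h1
  have h2 : T 0 = 1 := by
    rw [hT]
    dsimp only
    rw [if_pos (fun k _ => by rw [Matrix.mulVec_zero]; rfl)]
    have : (Finset.univ.filter fun k : Fin (n + 1) => (0 : Fin (n + 1) → ZMod 3) k ≠ 0) = ∅ := by
      ext k
      simp
    rw [this, Finset.card_empty, pow_zero]
  have h3 : ∀ v ∈ F, T v = (1 / 3 : ℝ) ^ (n + 1) := by
    intro v hv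
    have hv' := (Finset.mem_filter.1 hv).2
    rw [hT]
    dsimp only
    rw [if_pos (fun k hk => absurd hk (hv' k))]
    have : (Finset.univ.filter fun k : Fin (n + 1) => v k ≠ 0) = Finset.univ := by
      ext k
      simp [hv' k]
    rw [this, Finset.card_univ, Fintype.card_fin]
  rw [h2, Finset.sum_congr rfl h3, Finset.sum_const, hFc, nsmul_eq_mul] at h1
  push_cast at h1
  rw [← mul_pow] at h1
  norm_num at h1
  norm_num
  exact h1

end Pool.Agent.U687.KT
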