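import Pool.Agent.U687.PT.Field
import Pool.Agent.Q283.TC.Main

/-!
# The joint law of the cubic residue symbols of disjoint families of primes
-/

set_option autoImplicit false

open scoped Classical

namespace Pool.Agent.U687.KT

open Finset Filter Topology
open Pool.Agent.Y692.QS
open Pool.Agent.Y715.T.Rec (cs nn)
open Pool.Agent.Y715.T.RecG (Pq)
open Q283.TC (NT Dat HH)
open Pool.Agent.U687.PT (exists_dat)

/-- **the joint law** -/
theorem law {ι : Type} [Fintype ι] {n : ι → ℕ} (g : (s : ι) → Fin (n s) → Ei)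
    (hg : ∀ s k, Pq (g s k))
    (hinj : Function.Injective (fun x : (Σ s, Fin (n s)) => g x.1 x.2)) (a : ZMod 3)
    (C : (s : ι) → (Fin (n s) → ZMod 3) → Prop) (T : Ei → Prop)
    (hT : ∀ q, Pq q → (∀ s k, g s k ≠ q) → cs q w = a →
      (T q ↔ ∀ s, C s (fun k => cs q (g s k)))) :
    Tendsto (fun X : ℕ => (NT (fun q => cs q w = a ∧ T q) X : ℝ) /
      (NT (fun q => cs q w = a) X : ℝ)) atTop
      (𝓝 (∏ s, (Nat.card {x : Fin (n s) → ZMod 3 // C s x} : ℝ) / 3 ^ n s)) := by
  set P : Finset Ei := Finset.univ.image (fun x : (Σ s, Fin (n s)) => g x.1 x.2) with hPd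
  have hmem : ∀ x : (Σ s, Fin (n s)), g x.1 x.2 ∈ P := fun x =>
    Finset.mem_image.2 ⟨x, Finset.mem_univ _, rfl⟩
  have hP : ∀ q ∈ P, Pq q := by
    intro q hq
    obtain ⟨x, -, rfl⟩ := Finset.mem_image.1 hq
    exact hg _ _
  have hwP : w ∉ P := by
    intro h
    apply (hP w h).prime.not_isUnit
    rw [Pool.Agent.Y692.QS.isUnit_iff]; decide
  obtain ⟨L, hL, hN, hG, ⟨E⟩⟩ := exists_dat P hwP
  set N := P.card with hNd
  set κ : ℝ := 2 * (Nat.card (HH E.Z) : ℝ) / (Nat.card Gal(L/ℚ) : ℝ) with hκ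
  have hκ0 : 0 < κ := by
    have h1 := Nat.card_pos (α := HH E.Z)
    have h2 := Nat.card_pos (α := Gal(L/ℚ))
    positivity
  let eqv : (Σ s, Fin (n s)) ≃ P := Equiv.ofBijective (fun x => ⟨g x.1 x.2, hmem x⟩)
    ⟨fun x y hxy => hinj (congrArg Subtype.val hxy), fun q => by
      obtain ⟨x, -, hx⟩ := Finset.mem_image.1 q.2
      exact ⟨x, Subtype.ext hx⟩⟩
  have heqv : ∀ x, ((eqv x : P) : Ei) = g x.1 x.2 := fun x => rfl
  have hNs : N = ∑ s, n s := by
    have h1 : Fintype.card P = Fintype.card (Σ s, Fin (n s)) := Fintype.card_congr eqv.symm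
    rw [Fintype.card_coe, Fintype.card_sigma] at h1
    rw [hNd, h1]
    exact Finset.sum_congr rfl fun s _ => Fintype.card_fin _
  -- the two densities
  have d1 := E.dens hP (fun z => z.2 = a ∧ ∀ s, C s (fun k => z.1 (eqv ⟨s, k⟩)))
    (fun q => cs q w = a ∧ T q) (fun q hq hqP => by
      refine and_congr_right fun ha => ?_
      refine hT q hq (fun s k h => hqP ?_) ha
      rw [← h]
      exact hmem ⟨s, k⟩)
  have d0 := E.dens hP (fun z => z.2 = a) (fun q => cs q w = a) (fun q _ _ => Iff.rfl)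
  have c1 : Nat.card {z : (P → ZMod 3) × ZMod 3 //
      z.2 = a ∧ ∀ s, C s (fun k => z.1 (eqv ⟨s, k⟩))} =
      ∏ s, Nat.card {x : Fin (n s) → ZMod 3 // C s x} := by
    rw [← Nat.card_pi]
    refine Nat.card_congr
      { toFun := fun z s => ⟨fun k => z.1.1 (eqv ⟨s, k⟩), z.2.2 s⟩
        invFun := fun y => ⟨(fun p => (fun x : (Σ s, Fin (n s)) => (y x.1).1 x.2) (eqv.symm p), a),
          rfl, fun s => ?_⟩
        left_inv := fun z => ?_
        right_inv := fun y => ?_ }
    · have h1 : (fun k => (fun x : (Σ s, Fin (n s)) => (y x.1).1 x.2) (eqv.symm (eqv ⟨s, k⟩))) =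
          (y s).1 := by
        funext k
        rw [eqv.symm_apply_apply]
      show C s (fun k => (fun x : (Σ s, Fin (n s)) => (y x.1).1 x.2) (eqv.symm (eqv ⟨s, k⟩)))
      rw [h1]
      exact (y s).2
    · apply Subtype.ext
      refine Prod.ext ?_ z.2.1.symm
      funext p
      show z.1.1 (eqv (eqv.symm p)) = z.1.1 p
      rw [eqv.apply_symm_apply]
    · funext s
      apply Subtype.ext
      funext k
      show (fun x : (Σ s, Fin (n s)) => (y x.1).1 x.2) (eqv.symm (eqv ⟨s, k⟩)) = (y s).1 k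
      rw [eqv.symm_apply_apply]
  have c0 : Nat.card {z : (P → ZMod 3) × ZMod 3 // z.2 = a} = 3 ^ N := by
    have e1 : Nat.card (P → ZMod 3) = 3 ^ N := by
      rw [Nat.card_fun]
      simp [hNd]
    rw [← e1]
    refine Nat.card_congr
      { toFun := fun z => z.1.1
        invFun := fun x => ⟨(x, a), rfl⟩
        left_inv := fun z => Subtype.ext (Prod.ext rfl z.2.symm)
        right_inv := fun x => rfl }
  rw [c1] at d1
  rw [c0] at d0
  have h6 := d1.div d0 (by positivity)
  have h7 : κ * ((((∏ s, Nat.card {x : Fin (n s) → ZMod 3 // C s x} : ℕ)) : ℝ) / 3 ^ (N + 1)) /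
      (κ * (((3 ^ N : ℕ) : ℝ) / 3 ^ (N + 1))) =
      ∏ s, (Nat.card {x : Fin (n s) → ZMod 3 // C s x} : ℝ) / 3 ^ n s := by
    rw [Finset.prod_div_distrib, Finset.prod_pow_eq_pow_sum, ← hNs]
    push_cast
    field_simp
  rw [h7] at h6
  refine h6.congr' ?_
  filter_upwards [eventually_ge_atTop 2] with X hX
  have hpc : (Nat.primeCounting X : ℝ) ≠ 0 := by
    have : 0 < Nat.primeCounting X := by
      have h := Nat.monotone_primeCounting hX
      have h2 : Nat.primeCounting 2 = 1 := by decide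
      omega
    positivity
  show (NT _ X : ℝ) / _ / ((NT _ X : ℝ) / _) = _
  rw [div_div_div_cancel_right₀ hpc]

end Pool.Agent.U687.KT
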