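import Pool.Agent.U687.PT.Diag

/-!
# The graph of the cubic residue symbols with one new vertex
-/

set_option autoImplicit false

namespace Pool.Agent.U687.KT

open Finset Matrix
open Pool.Agent.U687.PT (PD pd_all)

/-- the weighted Laplacian with the additional vertex `ω` (as in `Pool.Agent.N883.FF.ConnK`) -/
def CK {n : ℕ} (e : Fin n → ZMod 3) (i : ZMod 3) (χ : Fin n → Fin n → ZMod 3)
    (η : Fin n → ZMod 3) : Prop :=
  ∀ (v : Fin n → ZMod 3) (t : ZMod 3),
    (∀ j, ∑ k, e k * χ j k * (v k - v j) + η j * (t - i * v j) = 0) →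
    ∀ j, t = i * v j ∧ ∀ k, v k = v j

/-- the symbols after the adjunction of one vertex -/
def ex1 {n : ℕ} (χ : Fin n → Fin n → ZMod 3) (x : Fin n → ZMod 3) :
    Fin (n + 1) → Fin (n + 1) → ZMod 3 :=
  Fin.cons (Fin.cons 0 x) fun j => Fin.cons (x j) (χ j)

section
variable {n : ℕ} (e : Fin n → ZMod 3) (i : ZMod 3) (χ : Fin n → Fin n → ZMod 3)
  (η : Fin n → ZMod 3) (f a : ZMod 3)

/-- the matrix without the new symbols -/
def BM (d : ZMod 3) : Matrix (Fin n) (Fin n) (ZMod 3) :=
  Matrix.of (fun j k => e k * χ j k + i * d * η j * (e k * η k)) +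
    diagonal (fun j => -(∑ l, e l * χ j l) - i * η j)

theorem BM_mulVec (d : ZMod 3) (y v : Fin n → ZMod 3) (j : Fin n) :
    ((BM e i χ η d + diagonal y) *ᵥ v) j =
      ∑ k, e k * χ j k * (v k - v j) + η j * (d * i * (∑ k, e k * η k * v k) - i * v j) +
        y j * v j := by
  rw [Matrix.add_mulVec, Pi.add_apply, Matrix.mulVec_diagonal]
  unfold BM
  rw [Matrix.add_mulVec, Pi.add_apply, Matrix.mulVec_diagonal]
  have e1 : (Matrix.of (fun j k => e k * χ j k + i * d * η j * (e k * η k)) *ᵥ v) j =
      ∑ k, (e k * χ j k * v k + i * d * η j * (e k * η k * v k)) := by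
    unfold Matrix.mulVec dotProduct
    refine Finset.sum_congr rfl fun k _ => ?_
    show (e k * χ j k + i * d * η j * (e k * η k)) * v k = _
    ring
  rw [e1, Finset.sum_add_distrib, ← Finset.mul_sum]
  have e2 : ∑ k, e k * χ j k * (v k - v j) = ∑ k, e k * χ j k * v k - (∑ k, e k * χ j k) * v j := by
    rw [Finset.sum_mul, ← Finset.sum_sub_distrib]
    exact Finset.sum_congr rfl fun k _ => by ring
  rw [e2]
  ring

variable {e i χ η f a}

/-- the antisymmetric part of the sum vanishes -/
theorem sum_anti (hs : ∀ j k, j ≠ k → χ j k = χ k j) (v : Fin n → ZMod 3) :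
    ∑ j, e j * (∑ k, e k * χ j k * (v k - v j)) = 0 := by
  have e1 : ∑ j, e j * (∑ k, e k * χ j k * (v k - v j)) =
      ∑ j, ∑ k, e j * e k * χ j k * (v k - v j) := by
    refine Finset.sum_congr rfl fun j _ => ?_
    rw [Finset.mul_sum]
    exact Finset.sum_congr rfl fun k _ => by ring
  have e2 : ∑ j, ∑ k, e j * e k * χ j k * (v k - v j) =
      -∑ j, ∑ k, e j * e k * χ j k * (v k - v j) := by
    rw [← Finset.sum_neg_distrib]
    rw [Finset.sum_comm]
    refine Finset.sum_congr rfl fun j _ => ?_
    rw [← Finset.sum_neg_distrib]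
    refine Finset.sum_congr rfl fun k _ => ?_
    by_cases hjk : k = j
    · rw [hjk, sub_self]
      ring
    · rw [hs k j hjk]
      ring
  rw [e1]
  generalize ∑ j, ∑ k, e j * e k * χ j k * (v k - v j) = z at e2
  revert z
  decide

/-- the equations at the old vertices, `v 0 = 0` -/
theorem row_succ (x v : Fin n → ZMod 3) (c t : ZMod 3) (j : Fin n) :
    ∑ k : Fin (n + 1), (Fin.cons f e : Fin (n + 1) → ZMod 3) k * ex1 χ x j.succ k *
        ((Fin.cons c (fun l => v l + c) : Fin (n + 1) → ZMod 3) k -
          (Fin.cons c (fun l => v l + c) : Fin (n + 1) → ZMod 3) j.succ) +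
      (Fin.cons a η : Fin (n + 1) → ZMod 3) j.succ *
        ((t + i * c) - i * (Fin.cons c (fun l => v l + c) : Fin (n + 1) → ZMod 3) j.succ) =
    ∑ k, e k * χ j k * (v k - v j) + η j * (t - i * v j) + -(f * x j) * v j := by
  rw [Fin.sum_univ_succ]
  unfold ex1
  simp only [Fin.cons_zero, Fin.cons_succ]
  have e1 : ∑ k : Fin n, e k * χ j k * (v k + c - (v j + c)) =
      ∑ k, e k * χ j k * (v k - v j) := Finset.sum_congr rfl fun k _ => by ring
  rw [e1]
  ring

/-- the equation at the new vertex -/
theorem row_zero (x v : Fin n → ZMod 3) (c t : ZMod 3) :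
    ∑ k : Fin (n + 1), (Fin.cons f e : Fin (n + 1) → ZMod 3) k * ex1 χ x 0 k *
        ((Fin.cons c (fun l => v l + c) : Fin (n + 1) → ZMod 3) k -
          (Fin.cons c (fun l => v l + c) : Fin (n + 1) → ZMod 3) 0) +
      (Fin.cons a η : Fin (n + 1) → ZMod 3) 0 *
        ((t + i * c) - i * (Fin.cons c (fun l => v l + c) : Fin (n + 1) → ZMod 3) 0) =
    ∑ k, e k * x k * v k + a * t := by
  rw [Fin.sum_univ_succ]
  unfold ex1
  simp only [Fin.cons_zero, Fin.cons_succ]
  have e1 : ∑ k : Fin n, e k * x k * (v k + c - c) = ∑ k, e k * x k * v k :=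
    Finset.sum_congr rfl fun k _ => by ring
  rw [e1]
  ring

/-- the sum of the equations at the old vertices -/
theorem sum_rows (hs : ∀ j k, j ≠ k → χ j k = χ k j) (x v : Fin n → ZMod 3) (t : ZMod 3)
    (h : ∀ j, ∑ k, e k * χ j k * (v k - v j) + η j * (t - i * v j) + -(f * x j) * v j = 0) :
    t * (∑ k, e k * η k) - i * (∑ k, e k * η k * v k) = f * ∑ k, e k * x k * v k := by
  have h1 : ∑ j, e j * (∑ k, e k * χ j k * (v k - v j) + η j * (t - i * v j) +
      -(f * x j) * v j) = 0 := Finset.sum_eq_zero fun j _ => by rw [h j, mul_zero]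
  have h2 : ∑ j, e j * (∑ k, e k * χ j k * (v k - v j) + η j * (t - i * v j) +
      -(f * x j) * v j) = ∑ j, e j * (∑ k, e k * χ j k * (v k - v j)) +
        (t * (∑ k, e k * η k) - i * (∑ k, e k * η k * v k) - f * ∑ k, e k * x k * v k) := by
    rw [Finset.mul_sum, Finset.mul_sum, Finset.mul_sum, ← Finset.sum_sub_distrib,
      ← Finset.sum_sub_distrib, ← Finset.sum_add_distrib]
    exact Finset.sum_congr rfl fun k _ => by ring
  rw [h2, sum_anti hs, zero_add] at h1
  exact sub_eq_zero.1 h1

/-- **the criterion after the adjunction of one vertex** -/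
theorem ck_iff (hs : ∀ j k, j ≠ k → χ j k = χ k j) (hf : f ≠ 0) {d : ZMod 3}
    (hd : (∑ k, e k * η k + f * a) * d = 1) (x : Fin n → ZMod 3) :
    CK (Fin.cons f e : Fin (n + 1) → ZMod 3) i (ex1 χ x) (Fin.cons a η : Fin (n + 1) → ZMod 3) ↔
      (BM e i χ η d + diagonal (fun j => -(f * x j))).det ≠ 0 := by
  constructor
  · intro h hdet
    obtain ⟨v, hv0, hv⟩ := Matrix.exists_mulVec_eq_zero_iff.2 hdet
    apply hv0
    set t := d * i * (∑ k, e k * η k * v k) with ht
    have hrow : ∀ j, ∑ k, e k * χ j k * (v k - v j) + η j * (t - i * v j) +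
        -(f * x j) * v j = 0 := by
      intro j
      rw [ht, ← BM_mulVec e i χ η d (fun j => -(f * x j)) v j, hv]
      rfl
    have hsum := sum_rows hs x v t hrow
    have hdt : (∑ k, e k * η k + f * a) * t = i * (∑ k, e k * η k * v k) := by
      rw [ht]
      linear_combination (i * (∑ k, e k * η k * v k)) * hd
    have h0 : f * (∑ k, e k * x k * v k + a * t) = 0 := by
      linear_combination hdt - hsum
    have h0' : ∑ k, e k * x k * v k + a * t = 0 := (mul_eq_zero.1 h0).resolve_left hf
    have h3 := h (Fin.cons 0 (fun l => v l + 0)) (t + i * 0) (by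
      intro j
      refine Fin.cases ?_ (fun j => ?_) j
      · rw [row_zero]
        exact h0'
      · rw [row_succ]
        exact hrow j) 0
    funext k
    have h4 := h3.2 k.succ
    simp only [Fin.cons_succ, Fin.cons_zero, add_zero] at h4
    exact h4
  · intro hdet V T hV
    set c := V 0 with hc
    set v : Fin n → ZMod 3 := fun k => V k.succ - c with hv
    set t := T - i * c with ht
    have eV : V = (Fin.cons c (fun l => v l + c) : Fin (n + 1) → ZMod 3) := by
      funext k
      refine Fin.cases ?_ (fun k => ?_) k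
      · rfl
      · simp [hv]
    have eT : T = t + i * c := by rw [ht]; ring
    have hrow : ∀ j, ∑ k, e k * χ j k * (v k - v j) + η j * (t - i * v j) +
        -(f * x j) * v j = 0 := by
      intro j
      have h1 := hV j.succ
      rw [eV, eT, row_succ] at h1
      exact h1
    have h0 : ∑ k, e k * x k * v k + a * t = 0 := by
      have h1 := hV 0
      rw [eV, eT, row_zero] at h1
      exact h1
    have hsum := sum_rows hs x v t hrow
    have hdt : (∑ k, e k * η k + f * a) * t = i * (∑ k, e k * η k * v k) := by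
      linear_combination hsum + f * h0
    have ht' : t = d * i * (∑ k, e k * η k * v k) := by
      linear_combination d * hdt - t * hd
    have hker : (BM e i χ η d + diagonal (fun j => -(f * x j))) *ᵥ v = 0 := by
      funext j
      rw [BM_mulVec, ← ht']
      exact hrow j
    have hv0 : v = 0 := by
      by_contra hne
      exact hdet (Matrix.exists_mulVec_eq_zero_iff.1 ⟨v, hne, hker⟩)
    have ht0 : t = 0 := by
      rw [ht', hv0]
      simp
    have hVc : ∀ k, V k = c := by
      intro k
      refine Fin.cases rfl (fun k => ?_) k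
      have h5 := congrFun hv0 k
      simp only [hv, Pi.zero_apply] at h5
      exact sub_eq_zero.1 h5
    intro j
    refine ⟨?_, fun k => by rw [hVc k, hVc j]⟩
    rw [hVc j, eT, ht0, zero_add]

/-- the number of the symbols for which the graph is connected -/
theorem card_ck (hs : ∀ j k, j ≠ k → χ j k = χ k j) (hf : f ≠ 0) {d : ZMod 3}
    (hd : (∑ k, e k * η k + f * a) * d = 1) :
    Nat.card {x : Fin n → ZMod 3 // CK (Fin.cons f e : Fin (n + 1) → ZMod 3) i (ex1 χ x)
      (Fin.cons a η : Fin (n + 1) → ZMod 3)} =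
    Nat.card {y : Fin n → ZMod 3 // (BM e i χ η d + diagonal y).det ≠ 0} := by
  have hff : f * f = 1 := by
    have : ∀ f : ZMod 3, f ≠ 0 → f * f = 1 := by decide
    exact this f hf
  refine Nat.card_congr
    { toFun := fun x => ⟨fun j => -(f * x.1 j), (ck_iff hs hf hd x.1).1 x.2⟩
      invFun := fun y => ⟨fun j => -(f * y.1 j), (ck_iff hs hf hd _).2 ?_⟩
      left_inv := fun x => Subtype.ext (funext fun j => ?_)
      right_inv := fun y => Subtype.ext (funext fun j => ?_) }
  · have h1 : (fun j => -(f * -(f * y.1 j))) = y.1 := by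
      funext j
      linear_combination (y.1 j) * hff
    rw [h1]
    exact y.2
  · linear_combination (x.1 j) * hff
  · linear_combination (y.1 j) * hff

/-- lower bound -/
theorem card_ck_ge (hs : ∀ j k, j ≠ k → χ j k = χ k j) (hf : f ≠ 0)
    (hd : ∑ k, e k * η k + f * a ≠ 0) :
    2 ^ n ≤ Nat.card {x : Fin n → ZMod 3 // CK (Fin.cons f e : Fin (n + 1) → ZMod 3) i (ex1 χ x)
      (Fin.cons a η : Fin (n + 1) → ZMod 3)} := by
  have hdd : (∑ k, e k * η k + f * a) * (∑ k, e k * η k + f * a) = 1 := by
    have : ∀ f : ZMod 3, f ≠ 0 → f * f = 1 := by decide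
    exact this _ hd
  rw [card_ck hs hf hdd]
  have h1 := pd_all (Fin n) inferInstance (BM e i χ η (∑ k, e k * η k + f * a))
  rw [Fintype.card_fin] at h1
  exact h1

end

/-- a value of the last diagonal entry for which the matrix is singular -/
theorem exists_sing {n : ℕ} (A : Matrix (Fin (n + 1)) (Fin (n + 1)) (ZMod 3))
    (y : Fin n → ZMod 3) (hy : (A.submatrix Fin.succ Fin.succ + diagonal y).det ≠ 0) :
    ∃ c : ZMod 3, (A + diagonal (Fin.cons c y : Fin (n + 1) → ZMod 3)).det = 0 := by
  -- the determinant is an affine function of `c`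
  have hk : (A.submatrix Fin.succ Fin.succ + diagonal y) =
      (A + diagonal (Fin.cons (0 : ZMod 3) y : Fin (n + 1) → ZMod 3)).submatrix Fin.succ
        Fin.succ := by
    ext i j
    simp only [Matrix.add_apply, Matrix.submatrix_apply, Matrix.diagonal_apply, Fin.cons_succ,
      Fin.succ_inj]
  set M := A + diagonal (Fin.cons (0 : ZMod 3) y : Fin (n + 1) → ZMod 3) with hM
  have hM' : ∀ c : ZMod 3, A + diagonal (Fin.cons c y : Fin (n + 1) → ZMod 3) =
      M.updateRow 0 (M 0 + Pi.single 0 c) := by
    intro c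
    ext i j
    refine Fin.cases ?_ (fun i => ?_) i
    · rw [Matrix.updateRow_self, Pi.add_apply, hM, Matrix.add_apply, Matrix.add_apply,
        Matrix.diagonal_apply, Matrix.diagonal_apply]
      refine Fin.cases ?_ (fun j => ?_) j
      · simp
      · have h1 : (0 : Fin (n + 1)) ≠ j.succ := (Fin.succ_ne_zero j).symm
        rw [if_neg h1, if_neg h1, Pi.single_eq_of_ne h1.symm]
        ring
    · rw [Matrix.updateRow_ne (Fin.succ_ne_zero i), hM, Matrix.add_apply, Matrix.add_apply,
        Matrix.diagonal_apply, Matrix.diagonal_apply]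
      congr 1
  have haff : ∀ c : ZMod 3, (A + diagonal (Fin.cons c y : Fin (n + 1) → ZMod 3)).det =
      M.det + c * (M.submatrix Fin.succ Fin.succ).det := by
    intro c
    rw [hM' c, Matrix.det_updateRow_add, Matrix.updateRow_eq_self]
    congr 1
    have h2 : (Pi.single 0 c : Fin (n + 1) → ZMod 3) = c • (Pi.single 0 1) := by
      rw [← Pi.single_smul, smul_eq_mul, mul_one]
    rw [h2, Matrix.det_updateRow_smul]
    congr 1
    rw [Matrix.det_succ_row_zero]
    rw [Fin.sum_univ_succ]
    rw [Finset.sum_eq_zero (fun j _ => by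
      rw [Matrix.updateRow_self, Pi.single_eq_of_ne (Fin.succ_ne_zero j)]; ring), add_zero]
    rw [Matrix.updateRow_self, Pi.single_eq_same]
    simp only [Fin.val_zero, pow_zero, one_mul]
    congr 1
  rw [← hk] at haff
  set m := (A.submatrix Fin.succ Fin.succ + diagonal y).det with hm
  refine ⟨-(M.det * m), ?_⟩
  rw [haff]
  have hmm : m * m = 1 := by
    have : ∀ f : ZMod 3, f ≠ 0 → f * f = 1 := by decide
    exact this m hy
  linear_combination (-M.det) * hmm

/-- the number of the singular perturbations -/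
theorem card_sing {n : ℕ} (A : Matrix (Fin (n + 1)) (Fin (n + 1)) (ZMod 3)) :
    2 ^ n ≤ Nat.card {y : Fin (n + 1) → ZMod 3 // ¬ (A + diagonal y).det ≠ 0} := by
  have h1 := pd_all (Fin n) inferInstance (A.submatrix Fin.succ Fin.succ)
  rw [Fintype.card_fin] at h1
  refine h1.trans ?_
  choose c hc using fun y : {y : Fin n → ZMod 3 //
    (A.submatrix Fin.succ Fin.succ + diagonal y).det ≠ 0} => exists_sing A y.1 y.2
  refine Nat.card_le_card_of_injective
    (fun y => (⟨Fin.cons (c y) y.1, not_not.2 (hc y)⟩ :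
      {y : Fin (n + 1) → ZMod 3 // ¬ (A + diagonal y).det ≠ 0})) ?_
  intro y y' hh
  apply Subtype.ext
  funext k
  have h2 := congrFun (congrArg Subtype.val hh) k.succ
  simpa using h2

end Pool.Agent.U687.KT
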