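import Pool.Agent.N883.FG.End
import Pool.Agent.U687.KT.Mat
import Pool.Agent.U687.KT.Law

/-!
# The criterion for the twists by one new prime over `ℚ(ω)`
-/

set_option autoImplicit false

open scoped Classical

namespace Pool.Agent.U687.KT

open NumberField
open Pool.Agent.Y692.QS (Ei w nr)
open Pool.Agent.Y703.CT (Dt pD pD_prim sum_ne_iff rq)
open Pool.Agent.Y715.T.Rec (cs nn)
open Pool.Agent.Y715.T.RecG (Pq cs_of)
open Pool.Agent.Y696.CTK (Tri ED parts pq_symm)
open Pool.Agent.N883.FF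

section
variable {K : Type} [Field K] [NumberField K] (j : Ei ≃+* 𝓞 K)

/-- the criterion in the Eisenstein integers -/
theorem tri_conn {m : ℕ} [Nonempty (Fin m)] {π : Fin m → Ei} {e : Fin m → ZMod 3} {i : ZMod 3}
    (hdt : Dt π e) (hx : NxE (pB π e i)) : Tri (j (pB π e i)) ↔ ConnE π e i := by
  by_cases hi : i = 0
  · subst hi
    have h9 := nx_nine hdt hx
    have e1 : pB π e 0 = pD π e := by
      unfold pB
      rw [ZMod.val_zero, pow_zero, one_mul]
    rw [conn_iffA Pool.Agent.Y350.CT.rec hdt h9, e1]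
    exact Pool.Agent.R419.KF.tri_iff j parts hdt h9
  · rw [conn_iffB hi]
    exact tri_iffB partsB j hdt hi

theorem fam_pB {m : ℕ} [Nonempty (Fin m)] {π : Fin m → Ei} {e : Fin m → ZMod 3} (i : ZMod 3)
    (hdt : Dt π e) : FamE (pB π e i) := by
  unfold pB
  rw [fam_iff i _ (pD_prim hdt).1]
  refine ⟨⟨(pD_prim hdt).1, (Pool.Agent.R419.CE.cf_pD hdt).2⟩, fun h => ?_⟩
  apply Pool.Agent.R419.CE.nunit hdt
  rw [h]
  exact isUnit_one

theorem nx_pB {m : ℕ} {π : Fin m → Ei} {e : Fin m → ZMod 3} {i : ZMod 3} (hdt : Dt π e)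
    (h : i = 0 → ∑ k, e k * nq (π k) ≠ 0) : NxE (pB π e i) := by
  rintro ⟨h1, h2⟩
  have hi : i = 0 := (three_dvd_w (pD_prim hdt).1 0).1 (by
    have e1 : (w : Ei) ^ (0 : ZMod 3).val = 1 := by decide
    rw [e1]
    exact h1)
  have h3 := h hi
  subst hi
  have e1 : pB π e 0 = pD π e := by
    unfold pB
    rw [ZMod.val_zero, pow_zero, one_mul]
  rw [e1] at h2
  refine (sum_ne_iff hdt).2 (fun h4 => h3 ?_) h2
  rw [← neg_eq_zero, ← h4, ← Finset.sum_neg_distrib]
  exact Finset.sum_congr rfl fun j _ => by rw [nq_rq (hdt.pq j).three]; ring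

/-- primary primes which are associated are equal -/
theorem eq_of_dvd {p q : Ei} (hp : Pq p) (hq : Pq q) (h : p ∣ q) : p = q := by
  obtain ⟨u, hu⟩ := (hp.prime.dvd_prime_iff_associated hq.prime).1 h
  have h1 : (3 : Ei) ∣ (u : Ei) - 1 := by
    have e1 : (u : Ei) - 1 = (q - 1) - (p - 1) * (u : Ei) := by rw [← hu]; ring
    rw [e1]
    exact dvd_sub hq.three (hp.three.mul_right _)
  have h2 := unit_prim u.isUnit h1
  rw [← hu, h2, mul_one]

theorem dt_cons {n : ℕ} {g : Fin n → Ei} {e : Fin n → ZMod 3} (hdt : Dt g e) {q : Ei}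
    (hq : Pq q) (hne : ∀ k, g k ≠ q) {f : ZMod 3} (hf : f ≠ 0) :
    Dt (Fin.cons q g : Fin (n + 1) → Ei) (Fin.cons f e : Fin (n + 1) → ZMod 3) := by
  refine ⟨fun k => ?_, fun k l hkl => ?_, fun k => ?_⟩
  · refine Fin.cases ?_ (fun k => ?_) k
    · exact hq
    · exact hdt.pq k
  · revert hkl
    refine Fin.cases ?_ (fun k => ?_) k
    · refine Fin.cases ?_ (fun l => ?_) l
      · intro h
        exact absurd rfl h
      · intro _ hd
        exact hne l (eq_of_dvd (hdt.pq l) hq hd)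
    · refine Fin.cases ?_ (fun l => ?_) l
      · intro _ hd
        exact hne k (eq_of_dvd hq (hdt.pq k) hd).symm
      · intro h
        exact hdt.nd k l (fun h' => h (congrArg Fin.succ h'))
  · refine Fin.cases ?_ (fun k => ?_) k
    · exact hf
    · exact hdt.e0 k

theorem pB_cons {n : ℕ} (g : Fin n → Ei) (e : Fin n → ZMod 3) (q : Ei) (f i : ZMod 3) :
    pB (Fin.cons q g : Fin (n + 1) → Ei) (Fin.cons f e : Fin (n + 1) → ZMod 3) i =
      pB g e i * q ^ f.val := by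
  unfold pB pD
  rw [Fin.prod_univ_succ]
  simp only [Fin.cons_zero, Fin.cons_succ]
  ring

/-- the graph with the new vertex -/
theorem conn_cons {n : ℕ} {g : Fin n → Ei} {e : Fin n → ZMod 3} {i f : ZMod 3}
    {χ : Fin n → Fin n → ZMod 3} {η : Fin n → ZMod 3} (hdt : Dt g e) {q : Ei}
    (hq : Pq q) (hne : ∀ k, g k ≠ q) (hχ : ∀ k l, k ≠ l → χ k l = cs (g k) (g l))
    (hη : ∀ k, η k = nq (g k)) :
    ConnE (Fin.cons q g : Fin (n + 1) → Ei) (Fin.cons f e : Fin (n + 1) → ZMod 3) i ↔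
      CK (Fin.cons f e : Fin (n + 1) → ZMod 3) i (ex1 χ (fun k => cs q (g k)))
        (Fin.cons (nq q) η : Fin (n + 1) → ZMod 3) := by
  have h1 : ∀ k l : Fin (n + 1), k ≠ l →
      cs ((Fin.cons q g : Fin (n + 1) → Ei) k) ((Fin.cons q g : Fin (n + 1) → Ei) l) =
        ex1 χ (fun k => cs q (g k)) k l := by
    intro k l
    refine Fin.cases ?_ (fun k => ?_) k
    · refine Fin.cases ?_ (fun l => ?_) l
      · intro h
        exact absurd rfl h
      · intro _
        rfl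
    · refine Fin.cases ?_ (fun l => ?_) l
      · intro _
        show cs (g k) q = cs q (g k)
        exact Pool.Agent.Y350.CT.rec q (g k) hq (hdt.pq k)
          (fun hd => hne k (eq_of_dvd (hdt.pq k) hq hd))
      · intro h
        show cs (g k) (g l) = χ k l
        exact (hχ k l (fun h' => h (congrArg Fin.succ h'))).symm
  have h2 : ∀ k : Fin (n + 1), nq ((Fin.cons q g : Fin (n + 1) → Ei) k) =
      (Fin.cons (nq q) η : Fin (n + 1) → ZMod 3) k := by
    intro k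
    refine Fin.cases ?_ (fun k => ?_) k
    · rfl
    · exact (hη k).symm
  unfold ConnE CK
  have key : ∀ (v : Fin (n + 1) → ZMod 3) (t : ZMod 3) (l : Fin (n + 1)),
      ∑ k, (Fin.cons f e : Fin (n + 1) → ZMod 3) k *
          cs ((Fin.cons q g : Fin (n + 1) → Ei) l) ((Fin.cons q g : Fin (n + 1) → Ei) k) *
            (v k - v l) + nq ((Fin.cons q g : Fin (n + 1) → Ei) l) * (t - i * v l) =
      ∑ k, (Fin.cons f e : Fin (n + 1) → ZMod 3) k * ex1 χ (fun k => cs q (g k)) l k *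
            (v k - v l) + (Fin.cons (nq q) η : Fin (n + 1) → ZMod 3) l * (t - i * v l) := by
    intro v t l
    rw [h2]
    congr 1
    refine Finset.sum_congr rfl fun k _ => ?_
    by_cases hkl : l = k
    · rw [hkl, sub_self, mul_zero, mul_zero]
    · rw [h1 l k hkl]
  simp only [key]

/-- the data in the Eisenstein integers -/
theorem fact_data (hj : ∀ z : Ei, Algebra.norm ℤ (j z) = nr z) {D : 𝓞 K} {n : ℕ}
    {π : Fin n → 𝓞 K} {e : Fin n → ZMod 3} {i : ZMod 3}
    {χ : Fin n → Fin n → ZMod 3} {η : Fin n → ZMod 3} (h : IsFactB (j w) D n π e i χ η) :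
    Dt (fun k => j.symm (π k)) e ∧ D = j (pB (fun k => j.symm (π k)) e i) ∧
      (∀ k l, k ≠ l → χ k l = cs (j.symm (π k)) (j.symm (π l))) ∧
      ∀ k, η k = nq (j.symm (π k)) := by
  obtain ⟨h1, h2, h3, h4⟩ := h
  have hdt : Dt (fun k => j.symm (π k)) e :=
    ⟨fun i => pq_symm j (h1 i).1 (h1 i).2.1, fun i k hik hd =>
      (h3 i k hik).1 ((map_dvd_iff j.symm).1 hd), fun i => (h1 i).2.2⟩
  have hnn : ∀ k, nn (j.symm (π k)) = ((Algebra.norm ℤ (π k)).natAbs - 1) / 3 := by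
    intro k
    unfold nn
    rw [← hj, RingEquiv.apply_symm_apply]
  refine ⟨hdt, ?_, ?_, ?_⟩
  · unfold pB pD
    rw [h2, map_mul, map_prod, map_pow]
    simp only [map_pow, RingEquiv.apply_symm_apply]
  · intro l k hlk
    symm
    have hpq := hdt.pq l
    apply Pool.Agent.Y715.T.RecG.cs_of hpq.prime hpq.norm
    have h6 := map_dvd j.symm (h3 k l hlk.symm).2
    rw [map_sub, map_pow, map_pow, RingEquiv.symm_apply_apply, ← hnn l] at h6
    exact h6
  · intro l
    symm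
    have hpq := hdt.pq l
    obtain ⟨h7, h8⟩ := cs_w' hpq
    rw [← h7]
    apply Pool.Agent.Y715.T.RecG.cs_of hpq.prime hpq.norm
    have h6 := map_dvd j.symm (h4 l)
    rw [map_sub, map_pow, map_pow, RingEquiv.symm_apply_apply, ← hnn l] at h6
    exact h6

theorem exists_j (hj : ∀ z : Ei, Algebra.norm ℤ (j z) = nr z) {ω : 𝓞 K}
    (hω : ω ^ 2 + ω + 1 = 0) :
    ∃ j' : Ei ≃+* 𝓞 K, (∀ z : Ei, Algebra.norm ℤ (j' z) = nr z) ∧ j' w = ω := by
  rcases jw_or j hω with h | h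
  · exact ⟨j, hj, h.symm⟩
  · refine ⟨(starRingAut : RingAut Ei).trans j, fun z => ?_, ?_⟩
    · rw [RingEquiv.trans_apply, hj, starRingAut_apply, Pool.Agent.Y692.QS.nr_star]
    · rw [RingEquiv.trans_apply, starRingAut_apply, Pool.Agent.Y692.QS.star_w, h]

theorem norm_class {z : Ei} (hz : Pq z) (a : ZMod 3) :
    nr z % 9 = 1 + 3 * (a.val : ℤ) ↔ cs z w = a := by
  rw [(cs_w' hz).1]
  obtain ⟨x, y, e, hr⟩ := Pool.Agent.Y703.CT.ex_q hz.three
  have h6 := Pool.Agent.Y703.CT.nr_form x y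
  rw [← e] at h6
  obtain ⟨m, hm⟩ : ∃ m : ℤ, nr z = 1 + 3 * m := ⟨2 * x - y + 3 * nr (⟨x, y⟩ : Ei), by
    rw [h6]; ring⟩
  unfold nq
  rw [hm]
  have e2 : (1 + 3 * m - 1) / 3 = m := by omega
  rw [e2]
  have hv : ((a.val : ℤ) : ZMod 3) = a := by
    rw [Int.cast_natCast, ZMod.natCast_zmod_val]
  have hlt : (a.val : ℤ) < 3 := by exact_mod_cast ZMod.val_lt a
  have h0 : 0 ≤ (a.val : ℤ) := Int.natCast_nonneg _
  constructor
  · intro h
    rw [← hv]
    rw [ZMod.intCast_eq_intCast_iff, Int.ModEq]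
    omega
  · intro h
    rw [← hv, ZMod.intCast_eq_intCast_iff, Int.ModEq] at h
    omega

/-- **the criterion for the twist by a new prime** -/
theorem twist (hj : ∀ z : Ei, Algebra.norm ℤ (j z) = nr z) {D : 𝓞 K} {n : ℕ}
    {π : Fin n → 𝓞 K} {e : Fin n → ZMod 3} {i : ZMod 3}
    {χ : Fin n → Fin n → ZMod 3} {η : Fin n → ZMod 3} (h : IsFactB (j w) D n π e i χ η)
    {f a : ZMod 3} (hf : f ≠ 0) (hx : i = 0 → ∑ k, e k * η k + f * a ≠ 0) {z : Ei} (hz : Pq z)
    (hne : ∀ k, j.symm (π k) ≠ z) (ha : cs z w = a) :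
    FamK (D * (j z) ^ f.val) ∧ NxK (D * (j z) ^ f.val) ∧
      (Tri (D * (j z) ^ f.val) ↔
        CK (Fin.cons f e : Fin (n + 1) → ZMod 3) i (ex1 χ (fun k => cs z (j.symm (π k))))
          (Fin.cons a η : Fin (n + 1) → ZMod 3)) := by
  obtain ⟨hdt, hD, hχ, hη⟩ := fact_data j hj h
  have hnq : nq z = a := by rw [← (cs_w' hz).1, ha]
  have hdt' := dt_cons hdt hz hne hf
  have e1 : D * (j z) ^ f.val = j (pB (Fin.cons z (fun k => j.symm (π k)) : Fin (n + 1) → Ei)
      (Fin.cons f e : Fin (n + 1) → ZMod 3) i) := by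
    rw [pB_cons, map_mul, map_pow, ← hD]
  have hnx : NxE (pB (Fin.cons z (fun k => j.symm (π k)) : Fin (n + 1) → Ei)
      (Fin.cons f e : Fin (n + 1) → ZMod 3) i) := by
    refine nx_pB hdt' fun hi => ?_
    rw [Fin.sum_univ_succ]
    simp only [Fin.cons_zero, Fin.cons_succ]
    have h2 := hx hi
    rw [hnq]
    intro h3
    apply h2
    rw [← h3, add_comm]
    congr 1
    exact Finset.sum_congr rfl fun k _ => by rw [hη k]
  rw [e1]
  refine ⟨(famK_iff j _).2 (fam_pB i hdt'), (nxK_iff j hj _).2 hnx, ?_⟩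
  rw [tri_conn j hdt' hnx, conn_cons hdt hz hne hχ hη, hnq]

end

end Pool.Agent.U687.KT
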