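import Pool.Agent.U687.KT.Mat

/-!
# Graphs with weights which may vanish; simultaneous perturbations of two matrices
-/

set_option autoImplicit false

open scoped Classical

namespace Pool.Agent.U687.KT

open Finset Matrix

/-- the weighted Laplacian of the graph on the support of `e`, with the additional vertex `ω` -/
def CS {n : ℕ} (e : Fin n → ZMod 3) (i : ZMod 3) (χ : Fin n → Fin n → ZMod 3)
    (η : Fin n → ZMod 3) : Prop :=
  ∀ (v : Fin n → ZMod 3) (t : ZMod 3),
    (∀ j, e j ≠ 0 → ∑ k, e k * χ j k * (v k - v j) + η j * (t - i * v j) = 0) →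
    ∀ j, e j ≠ 0 → t = i * v j ∧ ∀ k, e k ≠ 0 → v k = v j

/-- the symbols of the vertices matter only off the diagonal and on the support -/
theorem cs_congr {n : ℕ} {e : Fin n → ZMod 3} {i : ZMod 3} {χ χ' : Fin n → Fin n → ZMod 3}
    {η η' : Fin n → ZMod 3} (hχ : ∀ j k, j ≠ k → e j ≠ 0 → e k ≠ 0 → χ j k = χ' j k)
    (hη : ∀ j, e j ≠ 0 → η j = η' j) : CS e i χ η ↔ CS e i χ' η' := by
  unfold CS
  have key : ∀ (v : Fin n → ZMod 3) (t : ZMod 3) (j : Fin n), e j ≠ 0 →
      ∑ k, e k * χ j k * (v k - v j) + η j * (t - i * v j) =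
        ∑ k, e k * χ' j k * (v k - v j) + η' j * (t - i * v j) := by
    intro v t j hj
    rw [hη j hj]
    congr 1
    refine Finset.sum_congr rfl fun k _ => ?_
    by_cases hjk : j = k
    · rw [hjk, sub_self, mul_zero, mul_zero]
    · by_cases hk : e k = 0
      · rw [hk]; ring
      · rw [hχ j k hjk hj hk]
  constructor
  · intro h v t hv
    exact h v t fun j hj => by rw [key v t j hj]; exact hv j hj
  · intro h v t hv
    exact h v t fun j hj => by rw [← key v t j hj]; exact hv j hj

/-- duality -/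
theorem cs_neg {n : ℕ} {e : Fin n → ZMod 3} {i : ZMod 3} {χ : Fin n → Fin n → ZMod 3}
    {η : Fin n → ZMod 3} (h : CS e i χ η) : CS (fun k => -e k) (-i) χ η := by
  intro v t hv j hj
  have hne : ∀ k, (-e k ≠ 0) ↔ e k ≠ 0 := fun k => neg_ne_zero
  have h1 := h v (-t) (fun j hj => by
    have h2 := hv j ((hne j).2 hj)
    have h3 : ∑ k, -e k * χ j k * (v k - v j) = -∑ k, e k * χ j k * (v k - v j) := by
      rw [← Finset.sum_neg_distrib]
      exact Finset.sum_congr rfl fun k _ => by ring
    rw [h3] at h2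
    linear_combination -h2) j ((hne j).1 hj)
  exact ⟨by linear_combination -h1.1, fun k hk => h1.2 k ((hne k).1 hk)⟩

theorem cs_neg_iff {n : ℕ} {e : Fin n → ZMod 3} {i : ZMod 3} {χ : Fin n → Fin n → ZMod 3}
    {η : Fin n → ZMod 3} : CS (fun k => -e k) (-i) χ η ↔ CS e i χ η := by
  refine ⟨fun h => ?_, cs_neg⟩
  have h1 := cs_neg h
  simp only [neg_neg] at h1
  exact h1

section
variable {n : ℕ} (e : Fin n → ZMod 3) (i : ZMod 3) (χ : Fin n → Fin n → ZMod 3)
  (η : Fin n → ZMod 3) (f a : ZMod 3)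

/-- the matrix without the new symbols; unit rows outside of the support -/
def BS (d : ZMod 3) : Matrix (Fin n) (Fin n) (ZMod 3) :=
  Matrix.of fun j k => if e j = 0 then (if j = k then 1 else 0) else BM e i χ η d j k

/-- the perturbation -/
def GS (f : ZMod 3) (x : Fin n → ZMod 3) : Fin n → ZMod 3 := fun j => if e j = 0 then 0 else -(f * x j)

theorem BS_zero (d : ZMod 3) (x v : Fin n → ZMod 3) {j : Fin n} (hj : e j = 0) :
    ((BS e i χ η d + diagonal (GS e f x)) *ᵥ v) j = v j := by
  rw [Matrix.add_mulVec, Pi.add_apply, Matrix.mulVec_diagonal]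
  have h1 : GS e f x j = 0 := if_pos hj
  rw [h1, zero_mul, add_zero]
  unfold Matrix.mulVec dotProduct BS
  have h2 : ∀ k, (Matrix.of (fun j k => if e j = 0 then (if j = k then (1 : ZMod 3) else 0) else
      BM e i χ η d j k)) j k * v k = if j = k then v k else 0 := by
    intro k
    rw [Matrix.of_apply, if_pos hj]
    split_ifs <;> simp
  simp only [h2]
  rw [Finset.sum_ite_eq]
  simp

theorem BS_ne (d : ZMod 3) (x v : Fin n → ZMod 3) {j : Fin n} (hj : e j ≠ 0) :
    ((BS e i χ η d + diagonal (GS e f x)) *ᵥ v) j =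
      ∑ k, e k * χ j k * (v k - v j) + η j * (d * i * (∑ k, e k * η k * v k) - i * v j) +
        -(f * x j) * v j := by
  rw [← BM_mulVec e i χ η d (fun j => -(f * x j)) v j]
  rw [Matrix.add_mulVec, Pi.add_apply, Matrix.mulVec_diagonal, Matrix.add_mulVec, Pi.add_apply,
    Matrix.mulVec_diagonal]
  have h1 : GS e f x j = -(f * x j) := if_neg hj
  rw [h1]
  congr 1
  unfold Matrix.mulVec dotProduct BS
  refine Finset.sum_congr rfl fun k _ => ?_
  show (if e j = 0 then (if j = k then (1 : ZMod 3) else 0) else BM e i χ η d j k) * v k =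
    BM e i χ η d j k * v k
  rw [if_neg hj]

variable {e i χ η f a}

theorem sum_rows' (hs : ∀ j k, j ≠ k → χ j k = χ k j) (x v : Fin n → ZMod 3) (t : ZMod 3)
    (h : ∀ j, e j ≠ 0 → ∑ k, e k * χ j k * (v k - v j) + η j * (t - i * v j) +
      -(f * x j) * v j = 0) :
    t * (∑ k, e k * η k) - i * (∑ k, e k * η k * v k) = f * ∑ k, e k * x k * v k := by
  have h1 : ∑ j, e j * (∑ k, e k * χ j k * (v k - v j) + η j * (t - i * v j) +
      -(f * x j) * v j) = 0 := Finset.sum_eq_zero fun j _ => by
    by_cases hj : e j = 0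
    · rw [hj, zero_mul]
    · rw [h j hj, mul_zero]
  have h2 : ∑ j, e j * (∑ k, e k * χ j k * (v k - v j) + η j * (t - i * v j) +
      -(f * x j) * v j) = ∑ j, e j * (∑ k, e k * χ j k * (v k - v j)) +
        (t * (∑ k, e k * η k) - i * (∑ k, e k * η k * v k) - f * ∑ k, e k * x k * v k) := by
    rw [Finset.mul_sum, Finset.mul_sum, Finset.mul_sum, ← Finset.sum_sub_distrib,
      ← Finset.sum_sub_distrib, ← Finset.sum_add_distrib]
    exact Finset.sum_congr rfl fun k _ => by ring
  rw [h2, sum_anti hs, zero_add] at h1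
  exact sub_eq_zero.1 h1

/-- **the criterion after the adjunction of one vertex** -/
theorem cs_iff (hs : ∀ j k, j ≠ k → χ j k = χ k j) (hf : f ≠ 0) {d : ZMod 3}
    (hd : (∑ k, e k * η k + f * a) * d = 1) (x : Fin n → ZMod 3) :
    CS (Fin.cons f e : Fin (n + 1) → ZMod 3) i (ex1 χ x) (Fin.cons a η : Fin (n + 1) → ZMod 3) ↔
      (BS e i χ η d + diagonal (GS e f x)).det ≠ 0 := by
  constructor
  · intro h hdet
    obtain ⟨v, hv0, hv⟩ := Matrix.exists_mulVec_eq_zero_iff.2 hdet
    apply hv0
    have hz : ∀ j, e j = 0 → v j = 0 := by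
      intro j hj
      have h1 := congrFun hv j
      rw [BS_zero e i χ η f d x v hj] at h1
      exact h1
    set t := d * i * (∑ k, e k * η k * v k) with ht
    have hrow : ∀ j, e j ≠ 0 → ∑ k, e k * χ j k * (v k - v j) + η j * (t - i * v j) +
        -(f * x j) * v j = 0 := by
      intro j hj
      rw [ht, ← BS_ne e i χ η f d x v hj, hv]
      rfl
    have hsum := sum_rows' hs x v t hrow
    have hdt : (∑ k, e k * η k + f * a) * t = i * (∑ k, e k * η k * v k) := by
      rw [ht]
      linear_combination (i * (∑ k, e k * η k * v k)) * hd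
    have h0 : f * (∑ k, e k * x k * v k + a * t) = 0 := by
      linear_combination hdt - hsum
    have h0' : ∑ k, e k * x k * v k + a * t = 0 := (mul_eq_zero.1 h0).resolve_left hf
    have h3 := h (Fin.cons 0 (fun l => v l + 0)) (t + i * 0) (by
      intro j
      refine Fin.cases ?_ (fun j => ?_) j
      · intro _
        rw [row_zero]
        exact h0'
      · intro hj
        rw [row_succ]
        exact hrow j hj) 0 hf
    funext k
    by_cases hk : e k = 0
    · exact hz k hk
    · have h4 := h3.2 k.succ hk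
      simp only [Fin.cons_succ, Fin.cons_zero, add_zero] at h4
      exact h4
  · intro hdet V T hV
    set c := V 0 with hc
    set v : Fin n → ZMod 3 := fun k => if e k = 0 then 0 else V k.succ - c with hv
    set t := T - i * c with ht
    have eT : T = t + i * c := by rw [ht]; ring
    -- the modified vector satisfies the same equations
    have hsame : ∀ j : Fin (n + 1), (Fin.cons f e : Fin (n + 1) → ZMod 3) j ≠ 0 →
        ∑ k : Fin (n + 1), (Fin.cons f e : Fin (n + 1) → ZMod 3) k * ex1 χ x j k *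
          ((Fin.cons c (fun l => v l + c) : Fin (n + 1) → ZMod 3) k -
            (Fin.cons c (fun l => v l + c) : Fin (n + 1) → ZMod 3) j) +
        (Fin.cons a η : Fin (n + 1) → ZMod 3) j *
          ((t + i * c) - i * (Fin.cons c (fun l => v l + c) : Fin (n + 1) → ZMod 3) j) = 0 := by
      intro j hj
      have h1 := hV j hj
      have hval : ∀ k : Fin (n + 1), (Fin.cons f e : Fin (n + 1) → ZMod 3) k ≠ 0 →
          (Fin.cons c (fun l => v l + c) : Fin (n + 1) → ZMod 3) k = V k := by
        intro k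
        refine Fin.cases ?_ (fun k => ?_) k
        · intro _
          rfl
        · intro hk
          have hk' : e k ≠ 0 := hk
          show v k + c = V k.succ
          rw [hv]
          simp only [if_neg hk']
          ring
      rw [← h1, ← eT, hval j hj]
      congr 1
      refine Finset.sum_congr rfl fun k _ => ?_
      by_cases hk : (Fin.cons f e : Fin (n + 1) → ZMod 3) k = 0
      · rw [hk]; ring
      · rw [hval k hk]
    have hrow : ∀ j, e j ≠ 0 → ∑ k, e k * χ j k * (v k - v j) + η j * (t - i * v j) +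
        -(f * x j) * v j = 0 := by
      intro j hj
      have h1 := hsame j.succ hj
      rw [row_succ] at h1
      exact h1
    have h0 : ∑ k, e k * x k * v k + a * t = 0 := by
      have h1 := hsame 0 hf
      rw [row_zero] at h1
      exact h1
    have hsum := sum_rows' hs x v t hrow
    have hdt : (∑ k, e k * η k + f * a) * t = i * (∑ k, e k * η k * v k) := by
      linear_combination hsum + f * h0
    have ht' : t = d * i * (∑ k, e k * η k * v k) := by
      linear_combination d * hdt - t * hd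
    have hker : (BS e i χ η d + diagonal (GS e f x)) *ᵥ v = 0 := by
      funext j
      by_cases hj : e j = 0
      · rw [BS_zero e i χ η f d x v hj]
        show v j = 0
        rw [hv]
        simp only [if_pos hj]
      · rw [BS_ne e i χ η f d x v hj, ← ht']
        exact hrow j hj
    have hv0 : v = 0 := by
      by_contra hne
      exact hdet (Matrix.exists_mulVec_eq_zero_iff.1 ⟨v, hne, hker⟩)
    have ht0 : t = 0 := by
      rw [ht', hv0]
      simp
    have hVc : ∀ k, (Fin.cons f e : Fin (n + 1) → ZMod 3) k ≠ 0 → V k = c := by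
      intro k
      refine Fin.cases (fun _ => rfl) (fun k hk => ?_) k
      have hk' : e k ≠ 0 := hk
      have h5 := congrFun hv0 k
      simp only [hv, Pi.zero_apply, if_neg hk'] at h5
      exact sub_eq_zero.1 h5
    intro j hj
    refine ⟨?_, fun k hk => by rw [hVc k hk, hVc j hj]⟩
    rw [hVc j hj, eT, ht0, zero_add]

end

/-! ### perturbations of the diagonal -/

/-- the determinant is an affine function of the first diagonal entry -/
theorem det_affine {n : ℕ} (A : Matrix (Fin (n + 1)) (Fin (n + 1)) (ZMod 3)) (y : Fin n → ZMod 3)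
    (c : ZMod 3) : (A + diagonal (Fin.cons c y : Fin (n + 1) → ZMod 3)).det =
      (A + diagonal (Fin.cons 0 y : Fin (n + 1) → ZMod 3)).det +
        c * (A.submatrix Fin.succ Fin.succ + diagonal y).det := by
  have hk : (A.submatrix Fin.succ Fin.succ + diagonal y) =
      (A + diagonal (Fin.cons (0 : ZMod 3) y : Fin (n + 1) → ZMod 3)).submatrix Fin.succ
        Fin.succ := by
    ext i j
    simp only [Matrix.add_apply, Matrix.submatrix_apply, Matrix.diagonal_apply, Fin.cons_succ,
      Fin.succ_inj]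
  rw [hk]
  set M := A + diagonal (Fin.cons (0 : ZMod 3) y : Fin (n + 1) → ZMod 3) with hM
  have hM' : A + diagonal (Fin.cons c y : Fin (n + 1) → ZMod 3) =
      M.updateRow 0 (M 0 + Pi.single 0 c) := by
    ext i j
    refine Fin.cases ?_ (fun i => ?_) i
    · rw [Matrix.updateRow_self, Pi.add_apply, hM, Matrix.add_apply, Matrix.add_apply,
        Matrix.diagonal_apply, Matrix.diagonal_apply]
      refine Fin.cases ?_ (fun j => ?_) j
      · simp
      · have h1 : (0 : Fin (n + 1)) ≠ j.succ := (Fin.succ_ne_zero j).symm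
        rw [if_neg h1, if_neg h1, Pi.single_eq_of_ne h1.symm]
        ring
    · rw [Matrix.updateRow_ne (Fin.succ_ne_zero i), hM, Matrix.add_apply, Matrix.add_apply,
        Matrix.diagonal_apply, Matrix.diagonal_apply]
      congr 1
  rw [hM', Matrix.det_updateRow_add, Matrix.updateRow_eq_self]
  congr 1
  have h2 : (Pi.single 0 c : Fin (n + 1) → ZMod 3) = c • (Pi.single 0 1) := by
    rw [← Pi.single_smul, smul_eq_mul, mul_one]
  rw [h2, Matrix.det_updateRow_smul]
  congr 1
  rw [Matrix.det_succ_row_zero]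
  rw [Fin.sum_univ_succ]
  rw [Finset.sum_eq_zero (fun j _ => by
    rw [Matrix.updateRow_self, Pi.single_eq_of_ne (Fin.succ_ne_zero j)]; ring), add_zero]
  rw [Matrix.updateRow_self, Pi.single_eq_same]
  simp only [Fin.val_zero, pow_zero, one_mul]
  congr 1

/-- the pairs (matrix, coefficients of the perturbation) with unit rows where the perturbation
vanishes -/
def Adm {n : ℕ} (B : Matrix (Fin n) (Fin n) (ZMod 3)) (g : Fin n → ZMod 3) : Prop :=
  ∀ j, g j = 0 → ∀ k, B j k = if j = k then 1 else 0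

/-- the perturbed determinant -/
noncomputable def pd {n : ℕ} (B : Matrix (Fin n) (Fin n) (ZMod 3)) (g x : Fin n → ZMod 3) : ZMod 3 :=
  (B + diagonal fun j => g j * x j).det

theorem adm_sub {n : ℕ} {B : Matrix (Fin (n + 1)) (Fin (n + 1)) (ZMod 3)} {g : Fin (n + 1) → ZMod 3}
    (h : Adm B g) : Adm (B.submatrix Fin.succ Fin.succ) (fun j => g j.succ) := by
  intro j hj k
  rw [Matrix.submatrix_apply, h j.succ hj k.succ]
  simp only [Fin.succ_inj]

/-- there is at most one bad value of the first entry -/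
theorem one_bad {n : ℕ} {B : Matrix (Fin (n + 1)) (Fin (n + 1)) (ZMod 3)} {g : Fin (n + 1) → ZMod 3}
    (h : Adm B g) {y : Fin n → ZMod 3}
    (hy : pd (B.submatrix Fin.succ Fin.succ) (fun j => g j.succ) y ≠ 0) :
    ∃ b : ZMod 3, ∀ c : ZMod 3, c ≠ b → pd B g (Fin.cons c y : Fin (n + 1) → ZMod 3) ≠ 0 := by
  have e1 : ∀ c : ZMod 3, (fun j => g j * (Fin.cons c y : Fin (n + 1) → ZMod 3) j) =
      (Fin.cons (g 0 * c) (fun j => g j.succ * y j) : Fin (n + 1) → ZMod 3) := by
    intro c
    funext j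
    refine Fin.cases ?_ (fun j => ?_) j <;> rfl
  have e2 : ∀ c : ZMod 3, pd B g (Fin.cons c y : Fin (n + 1) → ZMod 3) =
      (B + diagonal (Fin.cons 0 (fun j => g j.succ * y j) : Fin (n + 1) → ZMod 3)).det +
        g 0 * c * pd (B.submatrix Fin.succ Fin.succ) (fun j => g j.succ) y := by
    intro c
    unfold pd
    rw [e1 c, det_affine]
  by_cases hg : g 0 = 0
  · refine ⟨0, fun c _ => ?_⟩
    rw [e2 c, hg, zero_mul, zero_mul, add_zero]
    have hrow : ∀ k, (B + diagonal (Fin.cons 0 (fun j => g j.succ * y j) :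
        Fin (n + 1) → ZMod 3)) 0 k = if (0 : Fin (n + 1)) = k then 1 else 0 := by
      intro k
      rw [Matrix.add_apply, h 0 hg k, Matrix.diagonal_apply]
      split_ifs <;> simp
    rw [Matrix.det_succ_row_zero, Fin.sum_univ_succ]
    rw [Finset.sum_eq_zero (fun j _ => by
      rw [hrow, if_neg (Fin.succ_ne_zero j).symm]; ring), add_zero]
    rw [hrow, if_pos rfl]
    simp only [Fin.val_zero, pow_zero, one_mul]
    have hk : (B + diagonal (Fin.cons 0 (fun j => g j.succ * y j) : Fin (n + 1) → ZMod 3)).submatrix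
        Fin.succ (Fin.succAbove 0) = B.submatrix Fin.succ Fin.succ +
          diagonal (fun j => g j.succ * y j) := by
      ext i j
      simp only [Matrix.add_apply, Matrix.submatrix_apply, Matrix.diagonal_apply, Fin.cons_succ,
        Fin.succAbove_zero, Fin.succ_inj]
    rw [hk]
    exact hy
  · set m := pd (B.submatrix Fin.succ Fin.succ) (fun j => g j.succ) y with hm
    set δ := (B + diagonal (Fin.cons 0 (fun j => g j.succ * y j) : Fin (n + 1) → ZMod 3)).det
    have hgm : g 0 * m ≠ 0 := mul_ne_zero hg hy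
    refine ⟨-(δ * (g 0 * m)), fun c hc h0 => hc ?_⟩
    rw [e2 c] at h0
    have hmm : (g 0 * m) * (g 0 * m) = 1 := by
      have : ∀ f : ZMod 3, f ≠ 0 → f * f = 1 := by decide
      exact this _ hgm
    linear_combination (g 0 * m) * h0 - c * hmm

theorem card_ne (b : ZMod 3) : Nat.card {c : ZMod 3 // c ≠ b} = 2 := by
  rw [Nat.card_eq_fintype_card]
  revert b
  decide

/-- one matrix -/
theorem pd_one : ∀ (n : ℕ) (B : Matrix (Fin n) (Fin n) (ZMod 3)) (g : Fin n → ZMod 3), Adm B g →
    2 ^ n ≤ Nat.card {x : Fin n → ZMod 3 // pd B g x ≠ 0} := by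
  intro n
  induction n with
  | zero =>
    intro B g _
    rw [pow_zero]
    have : Nonempty {x : Fin 0 → ZMod 3 // pd B g x ≠ 0} :=
      ⟨⟨fun _ => 0, by unfold pd; rw [Matrix.det_isEmpty]; exact one_ne_zero⟩⟩
    exact Nat.card_pos
  | succ n ih =>
    intro B g h
    have h1 := ih _ _ (adm_sub h)
    choose b hb using fun y : {y : Fin n → ZMod 3 //
      pd (B.submatrix Fin.succ Fin.succ) (fun j => g j.succ) y ≠ 0} => one_bad h y.2
    have hinj : Function.Injective
        (fun z : (Σ y : {y : Fin n → ZMod 3 //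
            pd (B.submatrix Fin.succ Fin.succ) (fun j => g j.succ) y ≠ 0}, {c : ZMod 3 // c ≠ b y}) =>
          (⟨Fin.cons z.2.1 z.1.1, hb z.1 z.2.1 z.2.2⟩ :
            {x : Fin (n + 1) → ZMod 3 // pd B g x ≠ 0})) := by
      rintro ⟨⟨y, hy⟩, ⟨c, hc⟩⟩ ⟨⟨y', hy'⟩, ⟨c', hc'⟩⟩ hh
      have h2 := congrArg Subtype.val hh
      simp only at h2
      have h3 : y = y' := by
        funext k
        have := congrFun h2 k.succ
        simpa using this
      subst h3
      have h4 : c = c' := by
        have := congrFun h2 0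
        simpa using this
      subst h4
      rfl
    have h2 := Nat.card_le_card_of_injective _ hinj
    rw [Nat.card_sigma] at h2
    simp only [card_ne, Finset.sum_const, Finset.card_univ, smul_eq_mul] at h2
    rw [← Nat.card_eq_fintype_card] at h2
    refine le_trans ?_ h2
    rw [pow_succ]
    exact Nat.mul_le_mul_right 2 h1

/-- two matrices -/
theorem pd_two : ∀ (n : ℕ) (B B' : Matrix (Fin n) (Fin n) (ZMod 3)) (g g' : Fin n → ZMod 3),
    Adm B g → Adm B' g' → ∃ x : Fin n → ZMod 3, pd B g x ≠ 0 ∧ pd B' g' x ≠ 0 := by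
  intro n
  induction n with
  | zero =>
    intro B B' g g' _ _
    refine ⟨fun _ => 0, ?_, ?_⟩ <;>
    · unfold pd
      rw [Matrix.det_isEmpty]
      exact one_ne_zero
  | succ n ih =>
    intro B B' g g' h h'
    obtain ⟨y, h1, h2⟩ := ih _ _ _ _ (adm_sub h) (adm_sub h')
    obtain ⟨b, hb⟩ := one_bad h h1
    obtain ⟨b', hb'⟩ := one_bad h' h2
    obtain ⟨c, hc, hc'⟩ : ∃ c : ZMod 3, c ≠ b ∧ c ≠ b' := by
      have : ∀ b b' : ZMod 3, ∃ c : ZMod 3, c ≠ b ∧ c ≠ b' := by decide
      exact this b b'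
    exact ⟨Fin.cons c y, hb c hc, hb' c hc'⟩

section
variable {n : ℕ} (e : Fin n → ZMod 3) (i : ZMod 3) (χ : Fin n → Fin n → ZMod 3)
  (η : Fin n → ZMod 3) (f : ZMod 3)

/-- the coefficients of the perturbation -/
def gco : Fin n → ZMod 3 := fun j => if e j = 0 then 0 else -f

theorem gs_eq (x : Fin n → ZMod 3) : GS e f x = fun j => gco e f j * x j := by
  funext j
  unfold GS gco
  split_ifs
  · ring
  · ring

variable {f} in
theorem adm_bs (hf : f ≠ 0) (d : ZMod 3) : Adm (BS e i χ η d) (gco e f) := by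
  intro j hj k
  have h1 : e j = 0 := by
    by_contra hne
    unfold gco at hj
    rw [if_neg hne, neg_eq_zero] at hj
    exact hf hj
  unfold BS
  rw [Matrix.of_apply, if_pos h1]

variable {e i χ η f}

theorem cs_iff' {a : ZMod 3} (hs : ∀ j k, j ≠ k → χ j k = χ k j) (hf : f ≠ 0) {d : ZMod 3}
    (hd : (∑ k, e k * η k + f * a) * d = 1) (x : Fin n → ZMod 3) :
    CS (Fin.cons f e : Fin (n + 1) → ZMod 3) i (ex1 χ x) (Fin.cons a η : Fin (n + 1) → ZMod 3) ↔
      pd (BS e i χ η d) (gco e f) x ≠ 0 := by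
  rw [cs_iff hs hf hd, gs_eq]
  rfl

theorem sq_one {f : ZMod 3} (h : f ≠ 0) : f * f = 1 := by
  have : ∀ f : ZMod 3, f ≠ 0 → f * f = 1 := by decide
  exact this _ h

/-- lower bound for one graph -/
theorem card_cs_ge {a : ZMod 3} (hs : ∀ j k, j ≠ k → χ j k = χ k j) (hf : f ≠ 0)
    (hd : ∑ k, e k * η k + f * a ≠ 0) :
    2 ^ n ≤ Nat.card {x : Fin n → ZMod 3 // CS (Fin.cons f e : Fin (n + 1) → ZMod 3) i (ex1 χ x)
      (Fin.cons a η : Fin (n + 1) → ZMod 3)} := by
  refine (pd_one n _ _ (adm_bs e i χ η hf (∑ k, e k * η k + f * a))).trans (le_of_eq ?_)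
  exact Nat.card_congr (Equiv.subtypeEquivRight fun x => (cs_iff' hs hf (sq_one hd) x).symm)

/-- two graphs can be connected simultaneously -/
theorem exists_two {a : ZMod 3} {e' : Fin n → ZMod 3} {i' f' : ZMod 3}
    (hs : ∀ j k, j ≠ k → χ j k = χ k j) (hf : f ≠ 0) (hf' : f' ≠ 0)
    (hd : ∑ k, e k * η k + f * a ≠ 0) (hd' : ∑ k, e' k * η k + f' * a ≠ 0) :
    ∃ x : Fin n → ZMod 3,
      CS (Fin.cons f e : Fin (n + 1) → ZMod 3) i (ex1 χ x) (Fin.cons a η : Fin (n + 1) → ZMod 3) ∧
      CS (Fin.cons f' e' : Fin (n + 1) → ZMod 3) i' (ex1 χ x)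
        (Fin.cons a η : Fin (n + 1) → ZMod 3) := by
  obtain ⟨x, h1, h2⟩ := pd_two n _ _ _ _ (adm_bs e i χ η hf (∑ k, e k * η k + f * a))
    (adm_bs e' i' χ η hf' (∑ k, e' k * η k + f' * a))
  exact ⟨x, (cs_iff' hs hf (sq_one hd) x).2 h1, (cs_iff' hs hf' (sq_one hd') x).2 h2⟩

end

end Pool.Agent.U687.KT
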