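import Pool.Agent.U687.KT.Crit
import Pool.Agent.U687.KT.Gen

/-!
# The criterion for monomials in a fixed system of primes and one new prime
-/

set_option autoImplicit false

open scoped Classical

namespace Pool.Agent.U687.KT

open NumberField Filter Topology
open Pool.Agent.Y692.QS (Ei w nr)
open Pool.Agent.Y703.CT (Dt pD pD_prim sum_ne_iff rq)
open Pool.Agent.Y715.T.Rec (cs nn)
open Pool.Agent.Y715.T.RecG (Pq cs_of)
open Pool.Agent.Y696.CTK (Tri ED parts pq_symm)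
open Pool.Agent.N883.FF

/-- the monomial with exponents modulo three -/
def mon {R : Type} [CommRing R] {n : ℕ} (ω : R) (π : Fin n → R) (i : ZMod 3) (e : Fin n → ZMod 3) : R :=
  ω ^ i.val * ∏ k, π k ^ (e k).val

section
variable {K : Type} [Field K] [NumberField K] (j : Ei ≃+* 𝓞 K)

/-- the criterion in the Eisenstein integers -/
theorem tri_conn' {J : Type} [Fintype J] [Nonempty J] {π : J → Ei} {e : J → ZMod 3} {i : ZMod 3}
    (hdt : Dt π e) (hx : NxE (pB π e i)) : Tri (j (pB π e i)) ↔ ConnE π e i := by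
  by_cases hi : i = 0
  · subst hi
    have e1 : pB π e 0 = pD π e := by
      unfold pB
      rw [ZMod.val_zero, pow_zero, one_mul]
    have h9 : ¬ (9 : ℤ) ∣ nr (pD π e) - 1 := by
      intro h9
      rw [e1] at hx
      exact hx ⟨(pD_prim hdt).1, h9⟩
    rw [conn_iffA Pool.Agent.Y350.CT.rec hdt h9, e1]
    exact Pool.Agent.R419.KF.tri_iff j parts hdt h9
  · rw [conn_iffB hi]
    exact tri_iffB partsB j hdt hi

theorem fam_pB' {J : Type} [Fintype J] [Nonempty J] {π : J → Ei} {e : J → ZMod 3} (i : ZMod 3)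
    (hdt : Dt π e) : FamE (pB π e i) := by
  unfold pB
  rw [fam_iff i _ (pD_prim hdt).1]
  refine ⟨⟨(pD_prim hdt).1, (Pool.Agent.R419.CE.cf_pD hdt).2⟩, fun h => ?_⟩
  apply Pool.Agent.R419.CE.nunit hdt
  rw [h]
  exact isUnit_one

theorem nx_pB' {J : Type} [Fintype J] {π : J → Ei} {e : J → ZMod 3} {i : ZMod 3} (hdt : Dt π e)
    (h : i = 0 → ∑ k, e k * nq (π k) ≠ 0) : NxE (pB π e i) := by
  rintro ⟨h1, h2⟩
  have hi : i = 0 := (three_dvd_w (pD_prim hdt).1 0).1 (by
    have e1 : (w : Ei) ^ (0 : ZMod 3).val = 1 := by decide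
    rw [e1]
    exact h1)
  have h3 := h hi
  subst hi
  have e1 : pB π e 0 = pD π e := by
    unfold pB
    rw [ZMod.val_zero, pow_zero, one_mul]
  rw [e1] at h2
  refine (sum_ne_iff hdt).2 (fun h4 => h3 ?_) h2
  rw [← neg_eq_zero, ← h4, ← Finset.sum_neg_distrib]
  exact Finset.sum_congr rfl fun j _ => by rw [nq_rq (hdt.pq j).three]; ring

section supp
variable {m : ℕ} {P : Fin m → Ei} {e : Fin m → ZMod 3} {i : ZMod 3}

theorem sum_supp (e : Fin m → ZMod 3) (F : Fin m → ZMod 3) :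
    ∑ k : {k : Fin m // e k ≠ 0}, e k * F k = ∑ k, e k * F k := by
  rw [← Finset.sum_filter_add_sum_filter_not Finset.univ (fun k => e k ≠ 0)]
  rw [Finset.sum_eq_zero (s := Finset.univ.filter fun k => ¬ e k ≠ 0) (fun k hk => by
    rw [not_not.1 (Finset.mem_filter.1 hk).2, zero_mul]), add_zero]
  exact (Finset.sum_subtype (Finset.univ.filter fun k => e k ≠ 0)
    (fun k => by simp) (fun k => e k * F k)).symm

theorem pB_supp (P : Fin m → Ei) (e : Fin m → ZMod 3) (i : ZMod 3) :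
    pB (fun k : {k : Fin m // e k ≠ 0} => P k) (fun k : {k : Fin m // e k ≠ 0} => e k) i =
      mon w P i e := by
  unfold pB pD mon
  congr 1
  rw [← Finset.prod_filter_mul_prod_filter_not Finset.univ (fun k => e k ≠ 0)]
  rw [Finset.prod_eq_one (s := Finset.univ.filter fun k => ¬ e k ≠ 0) (fun k hk => by
    rw [not_not.1 (Finset.mem_filter.1 hk).2, ZMod.val_zero, pow_zero]), mul_one]
  exact (Finset.prod_subtype (Finset.univ.filter fun k => e k ≠ 0)
    (fun k => by simp) (fun k => P k ^ (e k).val)).symm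

theorem conn_supp (P : Fin m → Ei) (e : Fin m → ZMod 3) (i : ZMod 3) :
    ConnE (fun k : {k : Fin m // e k ≠ 0} => P k) (fun k : {k : Fin m // e k ≠ 0} => e k) i ↔
      CS e i (fun k l => cs (P k) (P l)) (fun k => nq (P k)) := by
  unfold ConnE CS
  have key : ∀ (v : Fin m → ZMod 3) (t : ZMod 3) (j : {k : Fin m // e k ≠ 0}),
      ∑ k : {k : Fin m // e k ≠ 0}, e k * cs (P j) (P k) * (v k - v j) +
        nq (P j) * (t - i * v j) =
      ∑ k, e k * cs (P j) (P k) * (v k - v j) + nq (P j) * (t - i * v j) := by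
    intro v t j
    congr 1
    have h1 := sum_supp e (fun k => cs (P j) (P k) * (v k - v j))
    simp only [← mul_assoc] at h1
    exact h1
  constructor
  · intro h v t hv j hj
    have h1 := h (fun k => v k) t (fun j => by
      rw [key]
      exact hv j j.2) ⟨j, hj⟩
    exact ⟨h1.1, fun k hk => h1.2 ⟨k, hk⟩⟩
  · intro h v t hv j
    set V : Fin m → ZMod 3 := fun k => if hk : e k ≠ 0 then v ⟨k, hk⟩ else 0 with hV
    have hVk : ∀ k : {k : Fin m // e k ≠ 0}, V k = v k := fun k => by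
      rw [hV]
      simp only [dif_pos k.2]
    have h1 := h V t (fun l hl => by
      have h2 := hv ⟨l, hl⟩
      have h3 := key V t ⟨l, hl⟩
      simp only [hVk] at h3
      have hl' : V l = v ⟨l, hl⟩ := hVk ⟨l, hl⟩
      refine h3.symm.trans ?_
      rw [hl']
      exact h2) j j.2
    refine ⟨by rw [h1.1, hVk], fun k => ?_⟩
    rw [← hVk, ← hVk]
    exact h1.2 k k.2

/-- **the criterion, exponents which may vanish** -/
theorem crit_supp (hP : ∀ k, Pq (P k)) (hne : ∀ k l, k ≠ l → ¬ P l ∣ P k) (h0 : ∃ k, e k ≠ 0)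
    (h : i = 0 → ∑ k, e k * nq (P k) ≠ 0) :
    FamE (mon w P i e) ∧ NxE (mon w P i e) ∧ (Tri (j (mon w P i e)) ↔
      CS e i (fun k l => cs (P k) (P l)) (fun k => nq (P k))) := by
  have hdt : Dt (fun k : {k : Fin m // e k ≠ 0} => P k)
      (fun k : {k : Fin m // e k ≠ 0} => e k) :=
    ⟨fun k => hP k, fun k l hkl => hne k l (fun h => hkl (Subtype.ext h)), fun k => k.2⟩
  obtain ⟨k0, hk0⟩ := h0
  haveI : Nonempty {k : Fin m // e k ≠ 0} := ⟨⟨k0, hk0⟩⟩
  have hnx := nx_pB' (i := i) hdt (fun hi => by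
    rw [sum_supp e (fun k => nq (P k))]
    exact h hi)
  have hf := fam_pB' i hdt
  have ht := tri_conn' j hdt hnx
  rw [pB_supp] at hnx hf ht
  exact ⟨hf, hnx, ht.trans (conn_supp P e i)⟩

end supp

/-- a system of primes `1` modulo `3` with their cubic residue symbols -/
def IsSys (ω : 𝓞 K) (n : ℕ) (π : Fin n → 𝓞 K) (χ : Fin n → Fin n → ZMod 3)
    (η : Fin n → ZMod 3) : Prop :=
  (∀ k, Prime (π k) ∧ (3 : 𝓞 K) ∣ π k - 1) ∧
  (∀ k j, k ≠ j → ¬ π j ∣ π k ∧
    π j ∣ π k ^ (((Algebra.norm ℤ (π j)).natAbs - 1) / 3) - ω ^ (χ j k).val) ∧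
  ∀ j, π j ∣ ω ^ (((Algebra.norm ℤ (π j)).natAbs - 1) / 3) - ω ^ (η j).val

theorem sys_data (hj : ∀ z : Ei, Algebra.norm ℤ (j z) = nr z) {n : ℕ}
    {π : Fin n → 𝓞 K} {χ : Fin n → Fin n → ZMod 3} {η : Fin n → ZMod 3}
    (h : IsSys (j w) n π χ η) :
    (∀ k, Pq (j.symm (π k))) ∧ (∀ k l, k ≠ l → ¬ j.symm (π l) ∣ j.symm (π k)) ∧
      (∀ k l, k ≠ l → χ k l = cs (j.symm (π k)) (j.symm (π l))) ∧
      ∀ k, η k = nq (j.symm (π k)) := by
  obtain ⟨h1, h2, h3⟩ := h
  obtain ⟨a1, -, a3, a4⟩ := fact_data j hj (D := j w ^ (0 : ZMod 3).val *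
    ∏ k, π k ^ ((fun _ => (1 : ZMod 3)) k : ZMod 3).val) (i := 0) (e := fun _ => 1)
    ⟨fun k => ⟨(h1 k).1, (h1 k).2, one_ne_zero⟩, rfl, h2, h3⟩
  exact ⟨a1.pq, a1.nd, a3, a4⟩

theorem sys_symm (hj : ∀ z : Ei, Algebra.norm ℤ (j z) = nr z) {n : ℕ}
    {π : Fin n → 𝓞 K} {χ : Fin n → Fin n → ZMod 3} {η : Fin n → ZMod 3}
    (h : IsSys (j w) n π χ η) (k l : Fin n) (hkl : k ≠ l) : χ k l = χ l k := by
  obtain ⟨h1, h2, h3, h4⟩ := sys_data j hj h
  rw [h3 k l hkl, h3 l k hkl.symm]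
  exact Pool.Agent.Y350.CT.rec _ _ (h1 l) (h1 k) (h2 l k hkl.symm)

theorem mon_cons {R : Type} [CommRing R] {n : ℕ} (ω : R) (π : Fin n → R) (q : R) (i f : ZMod 3)
    (e : Fin n → ZMod 3) :
    mon ω (Fin.cons q π : Fin (n + 1) → R) i (Fin.cons f e : Fin (n + 1) → ZMod 3) =
      mon ω π i e * q ^ f.val := by
  unfold mon
  rw [Fin.prod_univ_succ]
  simp only [Fin.cons_zero, Fin.cons_succ]
  ring

theorem mon_map {n : ℕ} (P : Fin n → Ei) (i : ZMod 3) (e : Fin n → ZMod 3) :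
    j (mon w P i e) = mon (j w) (fun k => j (P k)) i e := by
  unfold mon
  rw [map_mul, map_prod, map_pow]
  simp only [map_pow]

/-- **the criterion for the twist by a new prime** -/
theorem twist2 (hj : ∀ z : Ei, Algebra.norm ℤ (j z) = nr z) {n : ℕ}
    {π : Fin n → 𝓞 K} {χ : Fin n → Fin n → ZMod 3} {η : Fin n → ZMod 3}
    (h : IsSys (j w) n π χ η) {e : Fin n → ZMod 3} {i : ZMod 3}
    {f a : ZMod 3} (hf : f ≠ 0) (hx : i = 0 → ∑ k, e k * η k + f * a ≠ 0) {z : Ei} (hz : Pq z)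
    (hne : ∀ k, j.symm (π k) ≠ z) (ha : cs z w = a) :
    FamK (mon (j w) π i e * (j z) ^ f.val) ∧ NxK (mon (j w) π i e * (j z) ^ f.val) ∧
      (Tri (mon (j w) π i e * (j z) ^ f.val) ↔
        CS (Fin.cons f e : Fin (n + 1) → ZMod 3) i (ex1 χ (fun k => cs z (j.symm (π k))))
          (Fin.cons a η : Fin (n + 1) → ZMod 3)) := by
  obtain ⟨hp, hnd, hχ, hη⟩ := sys_data j hj h
  have hnq : nq z = a := by rw [← (cs_w' hz).1, ha]
  set P : Fin (n + 1) → Ei := Fin.cons z (fun k => j.symm (π k)) with hPd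
  have hP : ∀ k, Pq (P k) := fun k => Fin.cases hz (fun k => hp k) k
  have hPne : ∀ k l, k ≠ l → ¬ P l ∣ P k := by
    intro k l
    refine Fin.cases ?_ (fun k => ?_) k
    · refine Fin.cases (fun h => absurd rfl h) (fun l _ hd => ?_) l
      exact hne l (eq_of_dvd (hp l) hz hd)
    · refine Fin.cases (fun _ hd => ?_) (fun l h => ?_) l
      · exact hne k (eq_of_dvd hz (hp k) hd).symm
      · exact hnd k l (fun h' => h (congrArg Fin.succ h'))
  have hnqP : ∀ k, nq (P k) = (Fin.cons a η : Fin (n + 1) → ZMod 3) k := by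
    intro k
    refine Fin.cases hnq (fun k => (hη k).symm) k
  have e1 : mon (j w) π i e * (j z) ^ f.val =
      j (mon w P i (Fin.cons f e : Fin (n + 1) → ZMod 3)) := by
    rw [mon_map, ← mon_cons]
    congr 1
    funext k
    refine Fin.cases rfl (fun k => ?_) k
    show π k = j (j.symm (π k))
    rw [RingEquiv.apply_symm_apply]
  obtain ⟨c1, c2, c3⟩ := crit_supp j (i := i) (e := (Fin.cons f e : Fin (n + 1) → ZMod 3)) hP hPne
    ⟨0, hf⟩ (by
      intro hi
      rw [Fin.sum_univ_succ]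
      have h2 := hx hi
      intro h3
      apply h2
      rw [← h3, add_comm]
      simp only [Fin.cons_zero, Fin.cons_succ]
      congr 1
      · rw [hnqP 0]
        rfl
      · exact Finset.sum_congr rfl fun k _ => by rw [hnqP k.succ]; rfl)
  rw [e1]
  refine ⟨(famK_iff j _).2 c1, (nxK_iff j hj _).2 c2, c3.trans ?_⟩
  refine cs_congr (fun k l hkl _ _ => ?_) (fun k _ => hnqP k)
  revert hkl
  refine Fin.cases ?_ (fun k => ?_) k
  · refine Fin.cases (fun h => absurd rfl h) (fun l _ => rfl) l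
  · refine Fin.cases (fun _ => ?_) (fun l h => ?_) l
    · show cs (j.symm (π k)) z = cs z (j.symm (π k))
      exact Pool.Agent.Y350.CT.rec z (j.symm (π k)) hz (hp k)
        (fun hd => hne k (eq_of_dvd (hp k) hz hd))
    · show cs (j.symm (π k)) (j.symm (π l)) = χ k l
      exact (hχ k l (fun h' => h (congrArg Fin.succ h'))).symm

/-- the law for one system -/
theorem law_sys (hj : ∀ z : Ei, Algebra.norm ℤ (j z) = nr z) {n : ℕ}
    {π : Fin n → 𝓞 K} {χ : Fin n → Fin n → ZMod 3} {η : Fin n → ZMod 3}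
    (h : IsSys (j w) n π χ η) (a : ZMod 3) (C : (Fin n → ZMod 3) → Prop) (T : Ei → Prop)
    (hT : ∀ z, Pq z → (∀ k, j.symm (π k) ≠ z) → cs z w = a →
      (T z ↔ C (fun k => cs z (j.symm (π k))))) :
    Tendsto (fun X : ℕ => (Q283.TC.NT (fun q => cs q w = a ∧ T q) X : ℝ) /
      (Q283.TC.NT (fun q => cs q w = a) X : ℝ)) atTop
      (𝓝 ((Nat.card {x : Fin n → ZMod 3 // C x} : ℝ) / 3 ^ n)) := by
  obtain ⟨hp, hnd, -, -⟩ := sys_data j hj h
  have h1 := law (ι := Unit) (n := fun _ => n) (fun _ k => j.symm (π k)) (fun _ k => hp k) (by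
    rintro ⟨⟨⟩, k⟩ ⟨⟨⟩, l⟩ hh
    by_cases hkl : k = l
    · rw [hkl]
    · exfalso
      apply hnd k l hkl
      have : j.symm (π k) = j.symm (π l) := hh
      rw [this]) a (fun _ x => C x) T (by
    intro q hq hne ha
    rw [hT q hq (hne ()) ha]
    exact ⟨fun h _ => h, fun h => h ()⟩)
  simpa using h1

end

end Pool.Agent.U687.KT
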