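import Pool.Agent.U687.KT.Crit
import Pool.Agent.U687.KT.Law

/-!
# The order of the Selmer group of `√-3` for the twist by a new prime
-/

set_option autoImplicit false
set_option linter.unusedSectionVars false

open scoped Classical

namespace Pool.Agent.U687.KT

open Finset Matrix

section lin
variable {n : ℕ}

/-- the symmetric matrix of the symbols -/
def SM (e : Fin n → ZMod 3) (χ : Fin n → Fin n → ZMod 3) : Matrix (Fin n) (Fin n) (ZMod 3) :=
  Matrix.of fun j k => e j * χ j k * e k

theorem SM_mulVec (e : Fin n → ZMod 3) (χ : Fin n → Fin n → ZMod 3) (y v : Fin n → ZMod 3)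
    (j : Fin n) : ((SM e χ + diagonal y) *ᵥ v) j = ∑ k, e j * χ j k * e k * v k + y j * v j := by
  rw [Matrix.add_mulVec, Pi.add_apply, Matrix.mulVec_diagonal]
  rfl

/-- the diagonal -/
def yx (e : Fin n → ZMod 3) (χ : Fin n → Fin n → ZMod 3) (f : ZMod 3) (x : Fin n → ZMod 3) :
    Fin n → ZMod 3 := fun j => -(∑ k, e j * χ j k * e k) - e j * f * x j

theorem sol_iff {e : Fin n → ZMod 3} {χ : Fin n → Fin n → ZMod 3} {f : ZMod 3}
    (he : ∀ k, e k ≠ 0) (hf : f ≠ 0)
    (hs : ∀ j k, j ≠ k → χ j k = χ k j) (x v : Fin n → ZMod 3) (c : ZMod 3) :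
    (∀ j : Fin (n + 1), ∑ k : Fin (n + 1), (Fin.cons f e : Fin (n + 1) → ZMod 3) k * ex1 χ x j k *
        ((Fin.cons c (fun l => v l + c) : Fin (n + 1) → ZMod 3) k -
          (Fin.cons c (fun l => v l + c) : Fin (n + 1) → ZMod 3) j) = 0) ↔
      (SM e χ + diagonal (yx e χ f x)) *ᵥ v = 0 := by
  have h1 : ∀ j : Fin n, ∑ k : Fin (n + 1), (Fin.cons f e : Fin (n + 1) → ZMod 3) k *
      ex1 χ x j.succ k * ((Fin.cons c (fun l => v l + c) : Fin (n + 1) → ZMod 3) k -
          (Fin.cons c (fun l => v l + c) : Fin (n + 1) → ZMod 3) j.succ) =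
      ∑ k, e k * χ j k * (v k - v j) + -(f * x j) * v j := by
    intro j
    have := row_succ (e := e) (i := 0) (χ := χ) (η := 0) (f := f) (a := 0) x v c 0 j
    simpa using this
  have h0 : ∑ k : Fin (n + 1), (Fin.cons f e : Fin (n + 1) → ZMod 3) k *
      ex1 χ x 0 k * ((Fin.cons c (fun l => v l + c) : Fin (n + 1) → ZMod 3) k -
          (Fin.cons c (fun l => v l + c) : Fin (n + 1) → ZMod 3) 0) = ∑ k, e k * x k * v k := by
    have := row_zero (e := e) (i := 0) (χ := χ) (η := 0) (f := f) (a := 0) x v c 0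
    simpa using this
  have h2 : ∀ j, ((SM e χ + diagonal (yx e χ f x)) *ᵥ v) j =
      e j * (∑ k, e k * χ j k * (v k - v j) + -(f * x j) * v j) := by
    intro j
    rw [SM_mulVec]
    unfold yx
    rw [mul_add, Finset.mul_sum, sub_mul, neg_mul, Finset.sum_mul]
    have e1 : ∑ k, e j * (e k * χ j k * (v k - v j)) =
        ∑ k, e j * χ j k * e k * v k - ∑ k, e j * χ j k * e k * v j := by
      rw [← Finset.sum_sub_distrib]
      exact Finset.sum_congr rfl fun k _ => by ring
    rw [e1]
    ring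
  constructor
  · intro h
    funext j
    rw [h2 j, ← h1 j, h j.succ, mul_zero]
    rfl
  · intro h
    have h3 : ∀ j, ∑ k, e k * χ j k * (v k - v j) + -(f * x j) * v j = 0 := by
      intro j
      have h4 := congrFun h j
      rw [h2 j] at h4
      exact (mul_eq_zero.1 h4).resolve_left (he j)
    intro j
    refine Fin.cases ?_ (fun j => ?_) j
    · rw [h0]
      have h5 := sum_rows (e := e) (i := 0) (χ := χ) (η := 0) (f := f) hs x v 0 (fun j => by
        have := h3 j
        simpa using this)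
      simp only [zero_mul, sub_zero] at h5
      exact (mul_eq_zero.1 h5.symm).resolve_left hf
    · rw [h1 j]
      exact h3 j

/-- the solutions are those of the reduced system, and a constant -/
theorem sol_card {e : Fin n → ZMod 3} {χ : Fin n → Fin n → ZMod 3} {f : ZMod 3}
    (he : ∀ k, e k ≠ 0) (hf : f ≠ 0) (hs : ∀ j k, j ≠ k → χ j k = χ k j) (x : Fin n → ZMod 3) :
    Nat.card {v : Fin (n + 1) → ZMod 3 // ∀ j : Fin (n + 1), ∑ k : Fin (n + 1),
      (Fin.cons f e : Fin (n + 1) → ZMod 3) k * ex1 χ x j k * (v k - v j) = 0} =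
      3 * Nat.card {v : Fin n → ZMod 3 // (SM e χ + diagonal (yx e χ f x)) *ᵥ v = 0} := by
  have e3 : ∀ N : ℕ, 3 * N = Nat.card (ZMod 3) * N := fun N => by rw [Nat.card_zmod]
  rw [e3, ← Nat.card_prod]
  refine Nat.card_congr
    { toFun := fun v => (v.1 0, ⟨fun k => v.1 k.succ - v.1 0, ?_⟩)
      invFun := fun p => ⟨(Fin.cons p.1 (fun l => p.2.1 l + p.1) : Fin (n + 1) → ZMod 3),
        (sol_iff he hf hs x p.2.1 p.1).2 p.2.2⟩
      left_inv := fun v => Subtype.ext ?_
      right_inv := fun p => ?_ }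
  · rw [← sol_iff he hf hs x _ (v.1 0)]
    have e1 : (Fin.cons (v.1 0) (fun l => v.1 (Fin.succ l) - v.1 0 + v.1 0) :
        Fin (n + 1) → ZMod 3) = v.1 := by
      funext k
      refine Fin.cases rfl (fun k => ?_) k
      show v.1 k.succ - v.1 0 + v.1 0 = _
      ring
    rw [e1]
    exact v.2
  · funext k
    refine Fin.cases rfl (fun k => ?_) k
    show v.1 k.succ - v.1 0 + v.1 0 = _
    ring
  · refine Prod.ext rfl (Subtype.ext (funext fun k => ?_))
    show p.2.1 k + p.1 - p.1 = _
    ring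

/-- the number of the elements of the kernel -/
theorem card_ker (A : Matrix (Fin n) (Fin n) (ZMod 3)) :
    Nat.card {v : Fin n → ZMod 3 // A *ᵥ v = 0} = 3 ^ (n - A.rank) ∧ A.rank ≤ n := by
  have h0 := LinearMap.finrank_range_add_finrank_ker A.mulVecLin
  have h1 : Module.finrank (ZMod 3) (Fin n → ZMod 3) = n := by
    rw [Module.finrank_fin_fun]
  rw [h1] at h0
  have h2 : Module.finrank (ZMod 3) (LinearMap.range A.mulVecLin) = A.rank := rfl
  rw [h2] at h0
  refine ⟨?_, by omega⟩
  have h3 : Nat.card (LinearMap.ker A.mulVecLin) =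
      3 ^ Module.finrank (ZMod 3) (LinearMap.ker A.mulVecLin) := by
    rw [Module.natCard_eq_pow_finrank (K := ZMod 3), Nat.card_zmod]
  have h4 : Nat.card {v : Fin n → ZMod 3 // A *ᵥ v = 0} = Nat.card (LinearMap.ker A.mulVecLin) :=
    Nat.card_congr (Equiv.subtypeEquivRight fun v => by
      rw [LinearMap.mem_ker, Matrix.mulVecLin_apply])
  rw [h4, h3]
  congr 1
  omega

theorem yx_bij {e : Fin n → ZMod 3} (χ : Fin n → Fin n → ZMod 3) {f : ZMod 3}
    (he : ∀ k, e k ≠ 0) (hf : f ≠ 0) : Function.Bijective (yx e χ f) := by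
  have hinj : Function.Injective (yx e χ f) := by
    intro x x' h
    funext j
    have h1 := congrFun h j
    unfold yx at h1
    have h2 : e j * f * x j = e j * f * x' j := by linear_combination -h1
    exact mul_left_cancel₀ (mul_ne_zero (he j) hf) h2
  exact Finite.injective_iff_bijective.1 hinj

/-- the number of the `x` with a given number of solutions -/
theorem card_sol {e : Fin n → ZMod 3} {χ : Fin n → Fin n → ZMod 3} {f : ZMod 3}
    (he : ∀ k, e k ≠ 0) (hf : f ≠ 0) (hs : ∀ j k, j ≠ k → χ j k = χ k j) (r : ℕ) :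
    Nat.card {x : Fin n → ZMod 3 // Nat.card {v : Fin (n + 1) → ZMod 3 // ∀ j : Fin (n + 1),
      ∑ k : Fin (n + 1), (Fin.cons f e : Fin (n + 1) → ZMod 3) k * ex1 χ x j k *
        (v k - v j) = 0} = 3 ^ (r + 1)} =
      Nat.card {y : Fin n → ZMod 3 // (SM e χ + diagonal y).rank + r = n} := by
  refine Nat.card_congr (Equiv.subtypeEquiv (Equiv.ofBijective _ (yx_bij χ he hf)) fun x => ?_)
  rw [sol_card he hf hs x, (card_ker _).1, ← pow_succ']
  show _ ↔ (SM e χ + diagonal (yx e χ f x)).rank + r = n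
  have h1 := (card_ker (SM e χ + diagonal (yx e χ f x))).2
  constructor
  · intro h
    have := Nat.pow_right_injective (le_refl 2 |>.trans (by norm_num : 2 ≤ 3)) h
    omega
  · intro h
    congr 1
    omega

end lin

end Pool.Agent.U687.KT
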